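import Mathlib
import Pool.Agent.H906R3.YM.Conc
import Pool.Agent.W793.YM.Inf
import Pool.Agent.TH618.YM.Cartan
import Pool.Agent.W2helper67.YM.GaussN

/-!
# Lattice Yang-Mills theory: the correlations of Wilson loops at weak coupling are Maxwell's

Wilson's lattice gauge theory in dimension `d ≥ 3` with gauge group a closed subgroup `G` of `U(N)`
at the inverse coupling `β`, in the infinite volume. For every number `r` of loops there is
`κ > 0`, depending on `d` and `r` only, such that for every infinite volume limit `ν` and all closed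
lattice paths `c_1, ..., c_r` of lengths `≤ β ^ κ` at mutual distances `≤ β ^ κ`
`⟨∏_i β Re tr (1 - U(c_i))⟩ = E ∏_i (1/2) ∑_{a ≤ dim G} (∮_{c_i} A^a)^2 + O(β ^ (-κ))`,
where `A^1, ..., A^{dim G}` are independent free Maxwell fields on `ℤ^d`, that is the circulations
`∮_{c_i} A^a` are jointly Gaussian, centred, independent for different `a`, with the covariance
`∑_{e ∈ c_i, e' ∈ c_j, e ∥ e'} ± G(e - e')`, `G` the Green function of the Laplacian of `ℤ^d`.
In particular the connected correlation of two Wilson loops is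
`β^2 (⟨W(c) W(c')⟩ - ⟨W(c)⟩ ⟨W(c')⟩) = (dim G / 2) K(c, c')^2 + O(β ^ (-κ))`.
-/

open MeasureTheory Matrix Filter
open scoped Matrix.Norms.Frobenius Topology

namespace Pool.Agent.Results.MP_7f377f_mp.MaxwellCorrelations

set_option linter.unusedSectionVars false
set_option linter.unusedVariables false

noncomputable section

/-- Complex `N × N` matrices. -/
abbrev Mt (N : ℕ) := Matrix (Fin N) (Fin N) ℂ

/-- The unitary group `U(N)`. -/
abbrev UU (N : ℕ) := Matrix.unitaryGroup (Fin N) ℂ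

/-- The matrix of an element of a subgroup of `U(N)`. -/
def mt {N : ℕ} {G : Subgroup (UU N)} (g : G) : Mt N := ((g : UU N) : Mt N)

/-- The dimension of `G`: the dimension of the real space spanned by all matrices `Y` with
`exp (t Y) ∈ G` for all real `t`. -/
def dimG {N : ℕ} (G : Subgroup (UU N)) : ℕ :=
  Module.finrank ℝ (Submodule.span ℝ {Y : Mt N | ∀ t : ℝ, ∃ g : G, mt g = NormedSpace.exp (t • Y)})

/-- Links of the periodic lattice `(ℤ/l)^d`: base point and direction. -/
abbrev Link (d l : ℕ) := (Fin d → ZMod l) × Fin d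

/-- Links of the lattice `ℤ^d`: base point and direction. -/
abbrev LinkZ (d : ℕ) := (Fin d → ℤ) × Fin d

section

variable {N d l : ℕ} {G : Subgroup (UU N)}

/-- The product of the link variables around the plaquette at `x` in the directions `i`, `j`. -/
def plaq (U : Link d l → G) (x : Fin d → ZMod l) (i j : Fin d) : G :=
  U (x, i) * U (x + Pi.single i 1, j) * (U (x + Pi.single j 1, i))⁻¹ * (U (x, j))⁻¹

/-- The Wilson action `∑_p Re tr (1 - U_p)`, the sum over the plaquettes. -/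
def action [NeZero l] (U : Link d l → G) : ℝ :=
  ∑ x : Fin d → ZMod l, ∑ i : Fin d, ∑ j : Fin d,
    if i < j then (trace (1 - mt (plaq U x i j))).re else 0

/-- The periodic extension of a configuration. -/
def per (U : Link d l → G) : LinkZ d → G := fun e => U (fun i => (e.1 i : ZMod l), e.2)

/-- The expectation of `F` in the lattice Yang-Mills theory on `(ℤ/l)^d`, `μ` being the Haar
measure. -/
def expect (l : ℕ) [NeZero l] [MeasurableSpace G] (μ : Measure G) (β : ℝ)
    (F : (LinkZ d → G) → ℝ) : ℝ :=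
  (∫ U : Link d l → G, F (per U) * Real.exp (-(β * action U)) ∂(Measure.pi fun _ => μ)) /
    ∫ U : Link d l → G, Real.exp (-(β * action U)) ∂(Measure.pi fun _ => μ)

/-- `ν` is an infinite volume limit (weak limit along a subsequence) of the theories on the tori of
even side at inverse coupling `β`. -/
structure IsInfVol [MeasurableSpace G] (μ : Measure G) (β : ℝ)
    (ν : Measure (LinkZ d → G)) : Prop where
  prob : IsProbabilityMeasure ν
  lim : ∃ s : ℕ → ℕ, Tendsto s atTop atTop ∧ ∀ F : (LinkZ d → G) → ℝ, Continuous F →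
    Tendsto (fun j => expect (2 * (s j + 1)) μ β F) atTop (𝓝 (∫ V, F V ∂ν))

/-- The displacement of a step: `(i, true)` is the step by one unit in the direction `i`,
`(i, false)` the step back. -/
def step (s : Fin d × Bool) : Fin d → ℤ := if s.2 then Pi.single s.1 1 else -Pi.single s.1 1

/-- The path with the steps `p` is closed. -/
def Closed (p : List (Fin d × Bool)) : Prop := (p.map step).sum = 0

/-- The product of the link variables along the path with the steps `p` from `x`; a link which is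
passed backwards enters with the inverse. -/
def hol (V : LinkZ d → G) : (Fin d → ℤ) → List (Fin d × Bool) → G
  | _, [] => 1
  | x, s :: p => (if s.2 then V (x, s.1) else (V (x - Pi.single s.1 1, s.1))⁻¹) *
      hol V (x + step s) p

/-- The Wilson loop variable `Re tr U(c)` of the path `c` with the steps `p` from `x`. -/
def loopVar (V : LinkZ d → G) (x : Fin d → ℤ) (p : List (Fin d × Bool)) : ℝ :=
  (trace (mt (hol V x p))).re

/-- The links of the path with the steps `p` from `x`: base point, direction, and the sign of the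
orientation. -/
def links : (Fin d → ℤ) → List (Fin d × Bool) → List ((Fin d → ℤ) × Fin d × ℝ)
  | _, [] => []
  | x, s :: p => (if s.2 then x else x - Pi.single s.1 1, s.1, if s.2 then 1 else -1) ::
      links (x + step s) p

/-- The Green function of `-Δ` on `ℤ^d`, `d ≥ 3`, as an integral over the momenta `2 π u`. -/
def green (x : Fin d → ℤ) : ℝ :=
  ∫ u in Set.pi Set.univ (fun _ : Fin d => Set.Icc (0 : ℝ) 1),
    Real.cos (2 * Real.pi * ∑ i, u i * x i) / ∑ i, 2 * (1 - Real.cos (2 * Real.pi * u i))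

/-- The covariance of the circulations of the free Maxwell field (with the propagator
`δ_{ij} G(x - y)`, of the Feynman gauge) around the paths with the steps `p`, `p'` from `x`, `x'`.
For closed paths it does not depend on the gauge. -/
def cov (x : Fin d → ℤ) (p : List (Fin d × Bool)) (x' : Fin d → ℤ)
    (p' : List (Fin d × Bool)) : ℝ :=
  ((links x p).map fun e => ((links x' p').map fun e' =>
    if e.2.1 = e'.2.1 then e.2.2 * e'.2.2 * green (e.1 - e'.1) else 0).sum).sum

/-- The covariance matrix of the circulations of `n` independent free Maxwell fields around the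
paths with the steps `p i` from `x i`. -/
def covMatrix {r : ℕ} (n : ℕ) (x : Fin r → Fin d → ℤ) (p : Fin r → List (Fin d × Bool)) :
    Matrix (Fin r × Fin n) (Fin r × Fin n) ℝ :=
  Matrix.of fun i j => if i.2 = j.2 then cov (x i.1) (p i.1) (x j.1) (p j.1) else 0

/-- The paths with the steps `p i` from `x i` are closed, of length at most `R`, and start at a
distance at most `R` from a common site. -/
def Within {r : ℕ} (R : ℝ) (x : Fin r → Fin d → ℤ) (p : Fin r → List (Fin d × Bool)) : Prop :=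
  ∃ x₀ : Fin d → ℤ, ∀ i, Closed (p i) ∧ ((p i).length : ℝ) ≤ R ∧ ∀ k, (|x i k - x₀ k| : ℤ) ≤ R

/-- The joint moment `⟨∏_i β Re tr (1 - U(c_i))⟩` of the Wilson loops. -/
def moment [MeasurableSpace G] {r : ℕ} (ν : Measure (LinkZ d → G)) (β : ℝ)
    (x : Fin r → Fin d → ℤ) (p : Fin r → List (Fin d × Bool)) : ℝ :=
  ∫ V, ∏ i, (β * (N - loopVar V (x i) (p i))) ∂ν

/-- The joint moment `E ∏_i (1/2) ∑_{a ≤ n} X_{i,a}^2` of the sums of the squares of the
circulations `X_{i,a}` of `n` independent free Maxwell fields. -/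
def gaussMoment {r : ℕ} (n : ℕ) (x : Fin r → Fin d → ℤ) (p : Fin r → List (Fin d × Bool)) : ℝ :=
  ∫ ω, ∏ i, (1 / 2 * ∑ a, ω (i, a) ^ 2)
    ∂(ProbabilityTheory.multivariateGaussian 0 (covMatrix n x p))

/-- The connected correlation `⟨W(c) W(c')⟩ - ⟨W(c)⟩ ⟨W(c')⟩` of two Wilson loops. -/
def connected [MeasurableSpace G] (ν : Measure (LinkZ d → G)) (x : Fin d → ℤ)
    (p : List (Fin d × Bool)) (y : Fin d → ℤ) (q : List (Fin d × Bool)) : ℝ :=
  ∫ V, loopVar V x p * loopVar V y q ∂ν - (∫ V, loopVar V x p ∂ν) * ∫ V, loopVar V y q ∂ν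

end

open Pool.Agent.H906R3 Pool.Agent.W793 Pool.Agent.TH618 Pool.Agent.W2helper67

variable {N n d l r : ℕ} {G : Subgroup (UU N)}

/-- A Haar probability measure is invariant under right multiplications. -/
lemma right_inv {H : Type*} [Group H] [TopologicalSpace H] [IsTopologicalGroup H]
    [CompactSpace H] [MeasurableSpace H] [BorelSpace H] (μ : Measure H)
    [IsProbabilityMeasure μ] [μ.IsHaarMeasure] : μ.IsMulRightInvariant := by
  refine ⟨fun g => ?_⟩
  have h1 : IsProbabilityMeasure (Measure.map (fun x => x * g) μ) :=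
    Measure.isProbabilityMeasure_map (measurable_mul_const g).aemeasurable
  exact Measure.isHaarMeasure_eq_of_isProbabilityMeasure _ _

/-- A Haar probability measure is invariant under the inversion. -/
lemma inv_inv' {H : Type*} [Group H] [TopologicalSpace H] [IsTopologicalGroup H]
    [CompactSpace H] [MeasurableSpace H] [BorelSpace H] (μ : Measure H)
    [IsProbabilityMeasure μ] [μ.IsHaarMeasure] : μ.IsInvInvariant := by
  have hr := right_inv μ
  refine ⟨?_⟩
  have h1 : IsProbabilityMeasure μ.inv :=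
    Measure.isProbabilityMeasure_map measurable_inv.aemeasurable
  have h2 : μ.inv.IsMulLeftInvariant := inferInstance
  have h3 : μ.inv.IsHaarMeasure :=
    Measure.isHaarMeasure_of_isCompact_nonempty_interior μ.inv Set.univ isCompact_univ
      (by simp) (by simp) (by simp)
  exact Measure.isHaarMeasure_eq_of_isProbabilityMeasure _ _

lemma dim_eq (B : YM.Frame G n) : dimG G = n := by
  have hli : LinearIndependent ℝ B.X := by
    rw [Fintype.linearIndependent_iff]
    intro c hc a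
    have h1 : (trace ((B.X a)ᴴ * ∑ b, c b • B.X b)).re = c a := by
      rw [Finset.mul_sum, trace_sum, Complex.re_sum]
      have h2 : ∀ b, (trace ((B.X a)ᴴ * (c b • B.X b))).re = if a = b then c b else 0 := by
        intro b
        rw [Matrix.mul_smul, trace_smul, Complex.smul_re, B.orth, smul_eq_mul, mul_ite, mul_one,
          mul_zero]
      simp only [h2]
      rw [Finset.sum_ite_eq Finset.univ a, if_pos (Finset.mem_univ a)]
    rw [hc, mul_zero, trace_zero] at h1
    exact h1.symm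
  have hspan : Submodule.span ℝ {Y : Mt N | ∀ t : ℝ, ∃ g : G, mt g = NormedSpace.exp (t • Y)} =
      Submodule.span ℝ (Set.range B.X) := by
    refine le_antisymm (Submodule.span_le.2 fun Y hY => B.full Y hY) (Submodule.span_le.2 ?_)
    rintro _ ⟨a, rfl⟩
    exact Submodule.subset_span fun t => ⟨B.ex a t, B.ex_eq a t⟩
  unfold dimG
  rw [hspan, finrank_span_eq_card hli, Fintype.card_fin]

section bridge

variable [CompactSpace G] [SecondCountableTopology G] [MeasurableSpace G] [BorelSpace G]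
  (μ : Measure G) [IsProbabilityMeasure μ] [μ.IsHaarMeasure] (B : YM.Frame G n)

lemma expect_eq [NeZero l] (β : ℝ) (F : (LinkZ d → G) → ℝ) : expect l μ β F =
    YM.EX μ B.toLD β (fun U : YM.Ed d l → G => F (YM.lf U)) := by
  unfold expect YM.EX YM.Zt
  simp only [one_mul]
  rfl

include B in
lemma action_cont [NeZero l] : Continuous (action : (Link d l → G) → ℝ) :=
  YM.act_cont (L := B.toLD)

include B in
/-- existence of infinite volume limits -/
lemma exists_infVol (β : ℝ) : ∃ ν : Measure (LinkZ d → G), IsInfVol μ β ν := by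
  have hP : ∀ j : ℕ, ∃ P : ProbabilityMeasure (LinkZ d → G),
      ∀ F : (LinkZ d → G) → ℝ, Continuous F →
        ∫ V, F V ∂(P : Measure (LinkZ d → G)) = expect (2 * (j + 1)) μ β F := by
    intro j
    have hper : Continuous (per : (Link d (2 * (j + 1)) → G) → LinkZ d → G) :=
      continuous_pi fun e => continuous_apply _
    have hexp : Continuous fun U : Link d (2 * (j + 1)) → G =>
        Real.exp (-(β * action U)) :=
      Real.continuous_exp.comp (continuous_const.mul (action_cont B)).neg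
    have hint : Integrable (fun U : Link d (2 * (j + 1)) → G =>
        Real.exp (-(β * action U))) (Measure.pi fun _ => μ) :=
      hexp.integrable_of_hasCompactSupport (HasCompactSupport.of_compactSpace _)
    have h1 := isProbabilityMeasure_tilted (f := fun U : Link d (2 * (j + 1)) → G =>
      -(β * action U)) hint
    refine ⟨⟨((Measure.pi fun _ => μ).tilted fun U : Link d (2 * (j + 1)) → G =>
      -(β * action U)).map per, Measure.isProbabilityMeasure_map hper.aemeasurable⟩,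
      fun F hF => ?_⟩
    show ∫ V, F V ∂(((Measure.pi fun _ => μ).tilted fun U : Link d (2 * (j + 1)) → G =>
      -(β * action U)).map per) = _
    rw [integral_map hper.aemeasurable hF.aestronglyMeasurable, integral_tilted]
    unfold expect
    rw [← integral_div]
    refine integral_congr_ae (Filter.Eventually.of_forall fun U => ?_)
    simp only [smul_eq_mul]
    ring
  choose P hP using hP
  obtain ⟨ν, s, hs, hlim⟩ := CompactSpace.tendsto_subseq P
  refine ⟨ν, ⟨inferInstance, s, hs.tendsto_atTop, fun F hF => ?_⟩⟩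
  have h1 := (ProbabilityMeasure.tendsto_iff_forall_integral_tendsto.1 hlim)
    (BoundedContinuousFunction.mkOfCompact ⟨F, hF⟩)
  simp only [Function.comp_apply, BoundedContinuousFunction.mkOfCompact_apply,
    ContinuousMap.coe_mk] at h1
  simpa only [hP _ F hF] using h1

lemma hol_eq (V : LinkZ d → G) (x : Fin d → ℤ) (p : List (Fin d × Bool)) :
    hol V x p = YM.hol V x p := by
  induction p generalizing x with
  | nil => rfl
  | cons s p ih =>
    obtain ⟨i, s⟩ := s
    cases s with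
    | true =>
      simp only [hol, YM.hol, if_true]
      rw [ih]; rfl
    | false =>
      simp only [hol, YM.hol, Bool.false_eq_true, if_false]
      rw [ih, sub_eq_add_neg]; rfl

lemma links_eq (x : Fin d → ℤ) (p : List (Fin d × Bool)) : links x p = YM.edges x p := by
  induction p generalizing x with
  | nil => rfl
  | cons s p ih => rw [links, YM.edges, ih]; rfl

lemma cov_eq (x : Fin d → ℤ) (p : List (Fin d × Bool)) (x' : Fin d → ℤ)
    (p' : List (Fin d × Bool)) : cov x p x' p' = YM.cv x p x' p' := by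
  rw [YM.cv_eq]
  unfold cov
  rw [links_eq, links_eq]
  rfl

lemma covMatrix_eq (x : Fin r → Fin d → ℤ) (p : Fin r → List (Fin d × Bool)) :
    covMatrix n x p = YM.cvM n x p := by
  unfold covMatrix YM.cvM
  simp only [cov_eq]

lemma mt_cont : Continuous (mt : G → Mt N) := continuous_subtype_val.comp continuous_subtype_val

lemma loopVar_cont (x : Fin d → ℤ) (p : List (Fin d × Bool)) :
    Continuous fun V : LinkZ d → G => loopVar V x p := by
  unfold loopVar
  simp only [hol_eq]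
  exact Complex.continuous_re.comp (mt_cont.comp (YM.hol_cont x p)).matrix_trace

include B in
lemma we_eq (V : LinkZ d → G) (x : Fin d → ℤ) (p : List (Fin d × Bool)) :
    (N : ℝ) - loopVar V x p = YM.we B.toLD (YM.hol V x p) := by
  rw [YM.we_tr]
  unfold loopVar
  rw [hol_eq]
  rfl

/-- the estimate in the infinite volume -/
lemma infvol_core [μ.IsMulRightInvariant] [μ.IsInvInvariant] {C0 : ℝ} (hC0 : 0 ≤ C0)
    (hcar : ∀ g : G, YM.dv B.toLD g ^ 2 ≤ ∑ a, YM.fi B.toLD a g ^ 2 + C0 * YM.dv B.toLD g ^ 4)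
    (hd : 3 ≤ d) (r : ℕ) : ∃ C : ℝ, 0 < C ∧ ∀ t : ℝ, 2 ≤ t → ∀ ν : Measure (LinkZ d → G),
    IsInfVol μ ((t ^ YM.eQ d r) ^ 4) ν → ∀ (x0 : Fin d → ℤ) (x : Fin r → Fin d → ℤ)
      (p : Fin r → List (Fin d × Bool)), (∀ i, Closed (p i)) →
      (∀ i, ((p i).length : ℝ) ≤ t) → (∀ i k, (|x i k - x0 k| : ℤ) ≤ t) →
      |∫ V, ∏ i, ((t ^ YM.eQ d r) ^ 4 * (N - loopVar V (x i) (p i))) ∂ν -
        ∫ ω, ∏ i, (1 / 2 * ∑ a, ω (i, a) ^ 2)
          ∂(ProbabilityTheory.multivariateGaussian 0 (covMatrix n x p))| ≤ C / t := by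
  obtain ⟨C, hC, h⟩ := YM.torus_est μ (L := B.toLD) hC0 hcar hd r (YM.gm r) (YM.gm_nonneg r)
  refine ⟨C, hC, fun t ht ν hν x0 x p hcl hlen hx0 => ?_⟩
  have ht0 : 0 < t := by linarith
  obtain ⟨s, hs, hlim⟩ := hν.lim
  obtain ⟨β, hβ⟩ : ∃ β, β = (t ^ YM.eQ d r) ^ 4 := ⟨_, rfl⟩
  rw [← hβ] at hlim ⊢
  obtain ⟨T, hT⟩ : ∃ T, T = ⌊t⌋₊ := ⟨_, rfl⟩
  have hTt : (T : ℝ) ≤ t := by rw [hT]; exact Nat.floor_le ht0.le
  have hlen' : ∀ i, (p i).length ≤ T := fun i => by
    rw [hT]; exact Nat.le_floor (hlen i)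
  have hx0' : ∀ i k, |x i k - x0 k| ≤ (T : ℤ) := fun i k => by
    have h1 : ((|x i k - x0 k|).toNat : ℝ) ≤ t := by
      have h2 : (((|x i k - x0 k|).toNat : ℤ) : ℝ) = ((|x i k - x0 k| : ℤ) : ℝ) := by
        rw [Int.toNat_of_nonneg (abs_nonneg _)]
      have h3 := hx0 i k
      rw [← h2] at h3
      exact_mod_cast h3
    have h4 : (|x i k - x0 k|).toNat ≤ T := by rw [hT]; exact Nat.le_floor h1
    omega
  have hdest : ∀ i, YM.dest (x i) (p i) = x i := fun i => by
    rw [YM.dest_eq]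
    have := hcl i
    unfold Closed at this
    have h2 : (p i).map W2helper67.YM.sv = (p i).map step := rfl
    rw [h2, this, add_zero]
  obtain ⟨I, hI⟩ : ∃ I, I = ∫ ω, ∏ i, ∑ a, ω (i, a) ^ 2
    ∂(ProbabilityTheory.multivariateGaussian 0 (covMatrix n x p)) := ⟨_, rfl⟩
  have hcont : Continuous fun V : LinkZ d → G => ∏ i, (2 * (β * (N - loopVar V (x i) (p i)))) :=
    continuous_finsetProd _ fun i _ => continuous_const.mul (continuous_const.mul
      (continuous_const.sub (loopVar_cont _ _)))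
  have key : |∫ V, ∏ i, (2 * (β * (N - loopVar V (x i) (p i)))) ∂ν - I| ≤ C / t := by
    have h1 := ((hlim _ hcont).sub_const I).abs
    refine le_of_tendsto h1 ?_
    filter_upwards [hs.eventually_ge_atTop (3 * ⌈t ^ YM.eB r⌉₊ + 5)] with j hj
    have h2 := h t ht (s j + 1) (by omega) T hTt x0 x p hlen' hdest hx0'
      (EuclideanSpace ℝ (Fin r × Fin n))
      (ProbabilityTheory.multivariateGaussian 0 (YM.cvM n x p)) (fun i a ω => ω (i, a))
      (YM.GF_multi hd x p)
    rw [← hβ, ← covMatrix_eq, ← hI] at h2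
    have h3 : expect (2 * (s j + 1)) μ β
        (fun V : LinkZ d → G => ∏ i, (2 * (β * (N - loopVar V (x i) (p i))))) =
        YM.EX μ B.toLD β (fun U : YM.Ed d (2 * (s j + 1)) → G =>
          ∏ i, (2 * (β * YM.we B.toLD (YM.hol (YM.lf U) (x i) (p i))))) := by
      rw [expect_eq μ B]
      congr 1
      funext U
      refine Finset.prod_congr rfl fun i _ => ?_
      rw [we_eq B]
    rw [h3]
    exact h2
  have e1 : ∫ V, ∏ i, (2 * (β * (N - loopVar V (x i) (p i)))) ∂ν =
      2 ^ r * ∫ V, ∏ i, (β * (N - loopVar V (x i) (p i))) ∂ν := by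
    simp only [Finset.prod_mul_distrib, Finset.prod_const, Finset.card_univ, Fintype.card_fin]
    rw [integral_const_mul]
  have e2 : I = 2 ^ r * ∫ ω, ∏ i, (1 / 2 * ∑ a, ω (i, a) ^ 2)
          ∂(ProbabilityTheory.multivariateGaussian 0 (covMatrix n x p)) := by
    rw [hI]
    simp only [Finset.prod_mul_distrib, Finset.prod_const, Finset.card_univ, Fintype.card_fin]
    rw [integral_const_mul, ← mul_assoc, ← mul_pow]
    norm_num
  rw [e1, e2, ← mul_sub, abs_mul, abs_of_pos (by positivity : (0 : ℝ) < 2 ^ r)] at key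
  have h2r : (1 : ℝ) ≤ 2 ^ r := one_le_pow₀ (by norm_num)
  exact (le_mul_of_one_le_left (abs_nonneg _) h2r).trans key

/-- the estimate in the infinite volume in terms of the coupling -/
lemma infvol_beta [μ.IsMulRightInvariant] [μ.IsInvInvariant] {C0 : ℝ} (hC0 : 0 ≤ C0)
    (hcar : ∀ g : G, YM.dv B.toLD g ^ 2 ≤ ∑ a, YM.fi B.toLD a g ^ 2 + C0 * YM.dv B.toLD g ^ 4)
    (hd : 3 ≤ d) (r q : ℕ) (hq : YM.eQ d r ≤ q) : ∃ C : ℝ, 0 < C ∧ ∀ β : ℝ, 2 ^ (4 * q) ≤ β →
    ∀ ν : Measure (LinkZ d → G), IsInfVol μ β ν → ∀ (x0 : Fin d → ℤ) (x : Fin r → Fin d → ℤ)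
      (p : Fin r → List (Fin d × Bool)), (∀ i, Closed (p i)) →
      (∀ i, ((p i).length : ℝ) ≤ β ^ (1 / (16 * q) : ℝ)) →
      (∀ i k, (|x i k - x0 k| : ℤ) ≤ β ^ (1 / (16 * q) : ℝ)) →
      |∫ V, ∏ i, (β * (N - loopVar V (x i) (p i))) ∂ν -
        ∫ ω, ∏ i, (1 / 2 * ∑ a, ω (i, a) ^ 2)
          ∂(ProbabilityTheory.multivariateGaussian 0 (covMatrix n x p))| ≤
            C * β ^ (-(4 * (1 / (16 * q))) : ℝ) := by
  obtain ⟨C, hC, h⟩ := infvol_core μ B hC0 hcar hd r
  refine ⟨C, hC, fun β hβ ν hν x0 x p hcl hlen hx0 => ?_⟩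
  have hQ1 : 1 ≤ YM.eQ d r := YM.eQ_pos d r
  have hq1 : 1 ≤ q := hQ1.trans hq
  have hQ0 : (0 : ℝ) < YM.eQ d r := by exact_mod_cast hQ1
  have hq0 : (0 : ℝ) < q := by exact_mod_cast hq1
  have hβ1 : 1 ≤ β := le_trans (one_le_pow₀ (by norm_num)) hβ
  have hβ0 : 0 < β := by linarith
  obtain ⟨t, ht⟩ : ∃ t : ℝ, t = β ^ (1 / (4 * YM.eQ d r) : ℝ) := ⟨_, rfl⟩
  have ht4 : (t ^ YM.eQ d r) ^ 4 = β := by
    rw [ht, ← pow_mul, ← Real.rpow_natCast, ← Real.rpow_mul hβ0.le]
    push_cast
    rw [show (1 / (4 * (YM.eQ d r : ℝ))) * ((YM.eQ d r : ℝ) * 4) = 1 by field_simp, Real.rpow_one]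
  have hle : (4 * (1 / (16 * q)) : ℝ) ≤ 1 / (4 * YM.eQ d r) := by
    rw [show (4 * (1 / (16 * q)) : ℝ) = 1 / (4 * q) by field_simp; ring]
    refine one_div_le_one_div_of_le (by positivity) ?_
    have : (YM.eQ d r : ℝ) ≤ q := by exact_mod_cast hq
    linarith
  have hkt : β ^ (4 * (1 / (16 * q)) : ℝ) ≤ t := by
    rw [ht]; exact Real.rpow_le_rpow_of_exponent_le hβ1 hle
  have hkt1 : β ^ (1 / (16 * q) : ℝ) ≤ t := by
    refine le_trans (Real.rpow_le_rpow_of_exponent_le hβ1 ?_) hkt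
    have : (0 : ℝ) ≤ 1 / (16 * q) := by positivity
    linarith
  have ht2 : 2 ≤ t := by
    refine le_trans ?_ hkt
    calc (2 : ℝ) = (2 ^ (4 * q) : ℝ) ^ (4 * (1 / (16 * q)) : ℝ) := by
          rw [← Real.rpow_natCast, ← Real.rpow_mul (by norm_num)]
          push_cast
          rw [show (4 * (q : ℝ)) * (4 * (1 / (16 * q))) = 1 by field_simp; norm_num, Real.rpow_one]
      _ ≤ β ^ (4 * (1 / (16 * q)) : ℝ) := Real.rpow_le_rpow (by positivity) hβ (by positivity)
  have key := h t ht2 ν (by rw [ht4]; exact hν) x0 x p hcl (fun i => (hlen i).trans hkt1)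
    (fun i k => (hx0 i k).trans hkt1)
  rw [ht4] at key
  refine key.trans ?_
  rw [Real.rpow_neg hβ0.le, div_eq_mul_inv]
  refine mul_le_mul_of_nonneg_left ?_ hC.le
  exact inv_anti₀ (by positivity) hkt

end bridge

/-- the expectation of the product of a pair of paths -/
lemma mean_cov2 (hd : 3 ≤ d) (n : ℕ) (x : Fin 2 → Fin d → ℤ) (p : Fin 2 → List (Fin d × Bool)) :
    ∫ ω, ∏ i, (1 / 2 * ∑ a, ω (i, a) ^ 2)
      ∂(ProbabilityTheory.multivariateGaussian 0 (covMatrix n x p)) =
      (n : ℝ) ^ 2 / 4 * (cov (x 0) (p 0) (x 0) (p 0) * cov (x 1) (p 1) (x 1) (p 1)) +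
        n / 2 * cov (x 0) (p 0) (x 1) (p 1) ^ 2 := by
  have h := YM.mean_two (n := n) hd x p
  simp only [Finset.prod_mul_distrib, Finset.prod_const, Finset.card_univ, Fintype.card_fin]
  rw [integral_const_mul, covMatrix_eq, h, cov_eq, cov_eq, cov_eq]
  ring

lemma mean_cov1 (hd : 3 ≤ d) (n : ℕ) (x : Fin 1 → Fin d → ℤ) (p : Fin 1 → List (Fin d × Bool)) :
    ∫ ω, ∏ i, (1 / 2 * ∑ a, ω (i, a) ^ 2)
      ∂(ProbabilityTheory.multivariateGaussian 0 (covMatrix n x p)) =
      n / 2 * cov (x 0) (p 0) (x 0) (p 0) := by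
  have h := YM.mean_one (n := n) hd x p
  simp only [Finset.prod_mul_distrib, Finset.prod_const, Finset.card_univ, Fintype.card_fin]
  rw [integral_const_mul, covMatrix_eq, h, cov_eq]
  ring

/-- the algebra of the connected correlation -/
lemma conn_alg {A B E a0 b0 c0 δ M : ℝ} (hA : |A - a0| ≤ δ) (hB : |B - b0| ≤ δ)
    (hE : |E - (a0 * b0 + c0)| ≤ δ) (ha : |a0| ≤ M) (hb : |b0| ≤ M) (hδ : 0 ≤ δ) (hM : 0 ≤ M) :
    |E - A * B - c0| ≤ δ * (1 + 2 * M + δ) := by
  have e : E - A * B - c0 = (E - (a0 * b0 + c0)) - (A - a0) * b0 - a0 * (B - b0) -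
      (A - a0) * (B - b0) := by ring
  have h1 : |(A - a0) * b0| ≤ δ * M := by
    rw [abs_mul]; exact mul_le_mul hA hb (abs_nonneg _) hδ
  have h2 : |a0 * (B - b0)| ≤ M * δ := by
    rw [abs_mul]; exact mul_le_mul ha hB (abs_nonneg _) hM
  have h3 : |(A - a0) * (B - b0)| ≤ δ * δ := by
    rw [abs_mul]; exact mul_le_mul hA hB (abs_nonneg _) hδ
  rw [e]
  rw [abs_le] at h1 h2 h3 hE ⊢
  constructor <;> nlinarith [h1.1, h1.2, h2.1, h2.2, h3.1, h3.2, hE.1, hE.2]

theorem result {d : ℕ} (hd : 3 ≤ d) (r : ℕ) : ∃ κ : ℝ, 0 < κ ∧ ∀ {N : ℕ} (G : Subgroup (UU N))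
    (hG : IsClosed (G : Set (UU N))) [MeasurableSpace G] [BorelSpace G]
    (μ : Measure G) [IsProbabilityMeasure μ] [μ.IsHaarMeasure],
    ∃ C β₀ : ℝ, 0 < C ∧ 0 < β₀ ∧ ∀ β : ℝ, β₀ ≤ β →
      (∀ ν : Measure (LinkZ d → G), IsInfVol μ β ν →
        (∀ (x : Fin r → Fin d → ℤ) (p : Fin r → List (Fin d × Bool)), Within (β ^ κ) x p →
          (covMatrix (dimG G) x p).PosSemidef ∧
          |moment ν β x p - gaussMoment (dimG G) x p| ≤ C * β ^ (-κ)) ∧
        ∀ (x y : Fin d → ℤ) (p q : List (Fin d × Bool)), Within (β ^ κ) ![x, y] ![p, q] →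
          |β ^ 2 * connected ν x p y q - dimG G / 2 * cov x p y q ^ 2| ≤ C * β ^ (-κ)) ∧
      ∃ ν : Measure (LinkZ d → G), IsInfVol μ β ν := by
  obtain ⟨q, hq⟩ : ∃ q, q = max (YM.eQ d r) (max (YM.eQ d 1) (YM.eQ d 2)) := ⟨_, rfl⟩
  have hqr : YM.eQ d r ≤ q := by rw [hq]; exact le_max_left _ _
  have hq1 : YM.eQ d 1 ≤ q := by rw [hq]; exact (le_max_left _ _).trans (le_max_right _ _)
  have hq2 : YM.eQ d 2 ≤ q := by rw [hq]; exact (le_max_right _ _).trans (le_max_right _ _)
  have hq0 : 1 ≤ q := (YM.eQ_pos d 1).trans hq1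
  have hq0' : (0 : ℝ) < q := by exact_mod_cast hq0
  obtain ⟨κ, hκ⟩ : ∃ κ : ℝ, κ = 1 / (16 * q) := ⟨_, rfl⟩
  have hκ0 : 0 < κ := by rw [hκ]; positivity
  refine ⟨κ, hκ0, fun {N} G hG _ _ μ _ _ => ?_⟩
  have : CompactSpace G := by
    have h1 : IsCompact (G : Set (UU N)) := hG.isCompact
    exact isCompact_iff_compactSpace.1 h1
  have h00 : SecondCountableTopology (UU N) := TopologicalSpace.Subtype.secondCountableTopology _
  have : SecondCountableTopology G := TopologicalSpace.Subtype.secondCountableTopology _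
  have := right_inv μ
  have := inv_inv' μ
  obtain ⟨n, ⟨B⟩⟩ := YM.exists_frame hG
  obtain ⟨C0, hC0, hcar⟩ := YM.cartan' B hG
  obtain ⟨C1, hC1, h1⟩ := infvol_beta μ B hC0.le hcar hd r q hqr
  obtain ⟨C2, hC2, h2⟩ := infvol_beta μ B hC0.le hcar hd 1 q hq1
  obtain ⟨C3, hC3, h3⟩ := infvol_beta μ B hC0.le hcar hd 2 q hq2
  rw [← hκ] at h1 h2 h3
  rw [dim_eq B]
  have hcw := YM.cw_nonneg d
  obtain ⟨D, hD⟩ : ∃ D : ℝ, D = (C2 + C3) * (1 + 2 * (n / 2 * (7 * YM.cw d)) + (C2 + C3)) :=
    ⟨_, rfl⟩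
  have hD0 : 0 ≤ D := by rw [hD]; positivity
  refine ⟨C1 + D, 2 ^ (4 * q), by positivity, by positivity, fun β hβ =>
    ⟨fun ν hν => ⟨fun x p ⟨x₀, hw⟩ => ⟨?_, ?_⟩, fun x y p q' ⟨x₀, hw⟩ => ?_⟩,
      exists_infVol μ B β⟩⟩
  · rw [covMatrix_eq]; exact YM.cvM_psd hd n x p
  all_goals
    have hβ1 : 1 ≤ β := le_trans (one_le_pow₀ (by norm_num)) hβ
    have hβ0 : 0 < β := by linarith
  · refine (h1 β hβ ν hν x₀ x p (fun i => (hw i).1) (fun i => (hw i).2.1)
      fun i => (hw i).2.2).trans ?_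
    have e1 : β ^ (-(4 * κ)) ≤ β ^ (-κ) :=
      Real.rpow_le_rpow_of_exponent_le hβ1 (by linarith)
    have e2 : 0 < β ^ (-κ) := Real.rpow_pos_of_pos hβ0 _
    calc C1 * β ^ (-(4 * κ)) ≤ C1 * β ^ (-κ) := mul_le_mul_of_nonneg_left e1 hC1.le
      _ ≤ _ := mul_le_mul_of_nonneg_right (by linarith) e2.le
  · have hprob := hν.prob
    obtain ⟨hp, hpl, hx0⟩ := hw 0
    obtain ⟨hq', hql, hy0⟩ := hw 1
    simp only [Matrix.cons_val_zero, Matrix.cons_val_one] at hp hpl hx0 hq' hql hy0
    obtain ⟨δ, hδ⟩ : ∃ δ : ℝ, δ = (C2 + C3) * β ^ (-(4 * κ)) := ⟨_, rfl⟩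
    have hb4 : 0 < β ^ (-(4 * κ)) := Real.rpow_pos_of_pos hβ0 _
    have hδ0 : 0 ≤ δ := by rw [hδ]; positivity
    obtain ⟨F, hF⟩ : ∃ F : (LinkZ d → G) → ℝ, F = fun V => loopVar V x p := ⟨_, rfl⟩
    obtain ⟨H, hH⟩ : ∃ H : (LinkZ d → G) → ℝ, H = fun V => loopVar V y q' := ⟨_, rfl⟩
    have cF : Continuous F := by rw [hF]; exact loopVar_cont x p
    have cH : Continuous H := by rw [hH]; exact loopVar_cont y q'
    have iF : Integrable F ν := cF.integrable_of_hasCompactSupport
      (HasCompactSupport.of_compactSpace _)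
    have iH : Integrable H ν := cH.integrable_of_hasCompactSupport
      (HasCompactSupport.of_compactSpace _)
    have iFH : Integrable (fun V => F V * H V) ν := (cF.mul cH).integrable_of_hasCompactSupport
      (HasCompactSupport.of_compactSpace _)
    have hbk : 0 ≤ β ^ κ := (Real.rpow_pos_of_pos hβ0 _).le
    -- one loop
    have one : ∀ (z : Fin d → ℤ) (p' : List (Fin d × Bool)), Closed p' →
        (p'.length : ℝ) ≤ β ^ κ → |∫ V, (β * (N - loopVar V z p')) ∂ν -
          n / 2 * cov z p' z p'| ≤ δ := by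
      intro z p' hp' hl
      have := h2 β hβ ν hν z (fun _ => z) (fun _ => p') (fun _ => hp') (fun _ => hl)
        (fun _ k => by simpa using hbk)
      rw [mean_cov1 hd] at this
      simp only [Finset.univ_unique, Fin.default_eq_zero, Finset.prod_singleton] at this
      refine this.trans ?_
      rw [hδ]
      exact mul_le_mul_of_nonneg_right (by linarith) hb4.le
    have hAx := one x p hp hpl
    have hBy := one y q' hq' hql
    have two : |∫ V, (β * (N - loopVar V x p)) * (β * (N - loopVar V y q')) ∂ν -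
        ((n / 2 * cov x p x p) * (n / 2 * cov y q' y q') + n / 2 * cov x p y q' ^ 2)| ≤ δ := by
      have := h3 β hβ ν hν x₀ ![x, y] ![p, q'] (fun i => (hw i).1) (fun i => (hw i).2.1)
        fun i => (hw i).2.2
      rw [mean_cov2 hd] at this
      simp only [Fin.prod_univ_two, Matrix.cons_val_zero, Matrix.cons_val_one] at this
      have e : (n : ℝ) ^ 2 / 4 * (cov x p x p * cov y q' y q') + n / 2 * cov x p y q' ^ 2 =
          (n / 2 * cov x p x p) * (n / 2 * cov y q' y q') + n / 2 * cov x p y q' ^ 2 := by ring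
      rw [e] at this
      refine this.trans ?_
      rw [hδ]
      exact mul_le_mul_of_nonneg_right (by linarith) hb4.le
    obtain ⟨M, hM⟩ : ∃ M : ℝ, M = n / 2 * (7 * YM.cw d) * β ^ (2 * κ) := ⟨_, rfl⟩
    have hb2 : 0 < β ^ (2 * κ) := Real.rpow_pos_of_pos hβ0 _
    have hM0 : 0 ≤ M := by rw [hM]; positivity
    have hcov : ∀ (z : Fin d → ℤ) (p' : List (Fin d × Bool)), (p'.length : ℝ) ≤ β ^ κ →
        |(n : ℝ) / 2 * cov z p' z p'| ≤ M := by
      intro z p' hl
      rw [abs_mul, abs_of_nonneg (by positivity : (0 : ℝ) ≤ n / 2), cov_eq, hM, mul_assoc]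
      refine mul_le_mul_of_nonneg_left ?_ (by positivity)
      refine (YM.cv_abs hd z p' z p').trans ?_
      rw [mul_comm (7 * YM.cw d)]
      refine mul_le_mul_of_nonneg_right ?_ (by positivity)
      rw [show 2 * κ = κ + κ by ring, Real.rpow_add hβ0]
      exact mul_le_mul hl hl (Nat.cast_nonneg _) hbk
    have key := conn_alg hAx hBy two (hcov x p hpl) (hcov y q' hql) hδ0 hM0
    have iN : ∀ c : ℝ, Integrable (fun _ : LinkZ d → G => c) ν := fun c => integrable_const _
    have eA : ∫ V, (β * (N - loopVar V x p)) ∂ν = β * (N - ∫ V, F V ∂ν) := by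
      have e1 := integral_sub (iN N) iF
      rw [integral_const_mul]
      rw [hF] at e1 ⊢
      rw [e1]
      simp
    have eB : ∫ V, (β * (N - loopVar V y q')) ∂ν = β * (N - ∫ V, H V ∂ν) := by
      have e1 := integral_sub (iN N) iH
      rw [integral_const_mul]
      rw [hH] at e1 ⊢
      rw [e1]
      simp
    have eE : ∫ V, (β * (N - loopVar V x p)) * (β * (N - loopVar V y q')) ∂ν =
        β ^ 2 * ((N : ℝ) ^ 2 - N * (∫ V, F V ∂ν) - N * (∫ V, H V ∂ν) + ∫ V, F V * H V ∂ν) := by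
      have e1 : (fun V : LinkZ d → G => (β * (N - loopVar V x p)) * (β * (N - loopVar V y q'))) =
          fun V => β ^ 2 * ((((N : ℝ) ^ 2 - N * F V) - N * H V) + F V * H V) := by
        funext V
        rw [hF, hH]
        ring
      have j1 : Integrable (fun V : LinkZ d → G => (N : ℝ) ^ 2 - N * F V) ν :=
        (iN _).sub (iF.const_mul _)
      have j2 : Integrable (fun V : LinkZ d → G => (N : ℝ) ^ 2 - N * F V - N * H V) ν :=
        j1.sub (iH.const_mul _)
      have k1 := integral_add j2 iFH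
      have k2 := integral_sub j1 (iH.const_mul (N : ℝ))
      have k3 := integral_sub (iN ((N : ℝ) ^ 2)) (iF.const_mul (N : ℝ))
      rw [e1, integral_const_mul, k1, k2, k3, integral_const_mul, integral_const_mul]
      simp
    rw [eA, eB, eE] at key
    have e3 : β ^ 2 * ((N : ℝ) ^ 2 - N * (∫ V, F V ∂ν) - N * (∫ V, H V ∂ν) + ∫ V, F V * H V ∂ν) -
        β * (N - ∫ V, F V ∂ν) * (β * (N - ∫ V, H V ∂ν)) = β ^ 2 * (∫ V, F V * H V ∂ν -
          (∫ V, F V ∂ν) * ∫ V, H V ∂ν) := by ring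
    rw [e3] at key
    have e4 : β ^ 2 * connected ν x p y q' = β ^ 2 * (∫ V, F V * H V ∂ν -
          (∫ V, F V ∂ν) * ∫ V, H V ∂ν) := by rw [hF, hH]; rfl
    rw [e4]
    refine key.trans ?_
    have hk1 : 1 ≤ β ^ (2 * κ) := Real.one_le_rpow hβ1 (by positivity)
    have hk2 : β ^ (-(4 * κ)) ≤ 1 := Real.rpow_le_one_of_one_le_of_nonpos hβ1 (by linarith)
    have g1 : 1 + 2 * M + δ ≤ (1 + 2 * (n / 2 * (7 * YM.cw d)) + (C2 + C3)) * β ^ (2 * κ) := by
      have g2 : δ ≤ (C2 + C3) * β ^ (2 * κ) := by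
        rw [hδ]
        exact mul_le_mul_of_nonneg_left (hk2.trans hk1) (by positivity)
      rw [hM]
      have g5 : (1 + 2 * (n / 2 * (7 * YM.cw d)) + (C2 + C3)) * β ^ (2 * κ) = β ^ (2 * κ) +
          2 * (n / 2 * (7 * YM.cw d) * β ^ (2 * κ)) + (C2 + C3) * β ^ (2 * κ) := by ring
      rw [g5]
      exact add_le_add (add_le_add hk1 le_rfl) g2
    have g3 : β ^ (-(4 * κ)) * β ^ (2 * κ) ≤ β ^ (-κ) := by
      rw [← Real.rpow_add hβ0]
      exact Real.rpow_le_rpow_of_exponent_le hβ1 (by linarith)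
    have g4 : 0 < β ^ (-κ) := Real.rpow_pos_of_pos hβ0 _
    calc δ * (1 + 2 * M + δ) ≤ δ * ((1 + 2 * (n / 2 * (7 * YM.cw d)) + (C2 + C3)) *
          β ^ (2 * κ)) := mul_le_mul_of_nonneg_left g1 hδ0
      _ = D * (β ^ (-(4 * κ)) * β ^ (2 * κ)) := by rw [hδ, hD]; ring
      _ ≤ D * β ^ (-κ) := mul_le_mul_of_nonneg_left g3 hD0
      _ ≤ _ := mul_le_mul_of_nonneg_right (by linarith) g4.le

end

end Pool.Agent.Results.MP_7f377f_mp.MaxwellCorrelations
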