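import Mathlib
import Pool.Agent.Results.MP_7f377f_mp.MaxwellCorrelations
import Pool.Agent.W2helper10.CorPsd
import Pool.Agent.W2helper10.MaxK
import Pool.Agent.W2helper10.GlueScale

/-!
# Lattice Yang-Mills theory: continuum limits of the plaquette correlation

Wilson's lattice gauge theory in dimension `d ≥ 3` with gauge group a closed subgroup `G` of `U(N)`
of dimension at least one, at inverse couplings `β_k → ∞`, in the infinite volume, and the connected
correlation `C_k(t)` of two parallel plaquettes at the distance `t` in an orthogonal direction (the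
time). The effective mass at the time `t` is `M_k(t) = log (C_k(t) / C_k(t + 1))`, it decreases to
the mass `m_k` of the lightest state (glueball) which is created by the plaquette; the scale `r_k` is
the least time `t ≥ 1` with `t M_k(t) ≥ c`. For `c ≥ c₀(d)` the scale tends to infinity. Either there
is no scale, and then the mass vanishes and the correlation is bounded below by a power of `t`, or,
along a subsequence, the correlation in the units of the scale, `C_k(⌊x r_k⌋) / C_k(r_k)`, tends to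
the correlation `∫ exp (- E (x - 1)) dσ(E)` of a continuum theory, locally uniformly in the time
`x > 0`, the spectral measure `σ` of the energies being a probability measure on
`[lim m_k r_k, ∞)` with the mean value `c`.
-/

open MeasureTheory Matrix Filter
open scoped Matrix.Norms.Frobenius Topology

namespace Pool.Agent.Results.MP_7f377f_mp.GlueballContinuumLimit

set_option linter.unusedSectionVars false

noncomputable section

/-- Complex `N × N` matrices. -/
abbrev Mt (N : ℕ) := Matrix (Fin N) (Fin N) ℂ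

/-- The unitary group `U(N)`. -/
abbrev UU (N : ℕ) := Matrix.unitaryGroup (Fin N) ℂ

/-- The matrix of an element of a subgroup of `U(N)`. -/
def mt {N : ℕ} {G : Subgroup (UU N)} (g : G) : Mt N := ((g : UU N) : Mt N)

/-- The dimension of `G`: the dimension of the real space spanned by all matrices `Y` with
`exp (t Y) ∈ G` for all real `t`. -/
def dimG {N : ℕ} (G : Subgroup (UU N)) : ℕ :=
  Module.finrank ℝ (Submodule.span ℝ {Y : Mt N | ∀ t : ℝ, ∃ g : G, mt g = NormedSpace.exp (t • Y)})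

/-- Links of the periodic lattice `(ℤ/l)^d`: base point and direction. -/
abbrev Link (d l : ℕ) := (Fin d → ZMod l) × Fin d

/-- Links of the lattice `ℤ^d`: base point and direction. -/
abbrev LinkZ (d : ℕ) := (Fin d → ℤ) × Fin d

section

variable {N d l : ℕ} {G : Subgroup (UU N)}

/-- The product of the link variables around the plaquette at `x` in the directions `i`, `j`. -/
def plaq (U : Link d l → G) (x : Fin d → ZMod l) (i j : Fin d) : G :=
  U (x, i) * U (x + Pi.single i 1, j) * (U (x + Pi.single j 1, i))⁻¹ * (U (x, j))⁻¹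

/-- The Wilson action `∑_p Re tr (1 - U_p)`, the sum over the plaquettes. -/
def action [NeZero l] (U : Link d l → G) : ℝ :=
  ∑ x : Fin d → ZMod l, ∑ i : Fin d, ∑ j : Fin d,
    if i < j then (trace (1 - mt (plaq U x i j))).re else 0

/-- The periodic extension of a configuration. -/
def per (U : Link d l → G) : LinkZ d → G := fun e => U (fun i => (e.1 i : ZMod l), e.2)

/-- The expectation of `F` in the lattice Yang-Mills theory on `(ℤ/l)^d`, `μ` being the Haar
measure. -/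
def expect (l : ℕ) [NeZero l] [MeasurableSpace G] (μ : Measure G) (β : ℝ)
    (F : (LinkZ d → G) → ℝ) : ℝ :=
  (∫ U : Link d l → G, F (per U) * Real.exp (-(β * action U)) ∂(Measure.pi fun _ => μ)) /
    ∫ U : Link d l → G, Real.exp (-(β * action U)) ∂(Measure.pi fun _ => μ)

/-- `ν` is an infinite volume limit (weak limit along a subsequence) of the theories on the tori of
even side at inverse coupling `β`. -/
structure IsInfVol [MeasurableSpace G] (μ : Measure G) (β : ℝ)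
    (ν : Measure (LinkZ d → G)) : Prop where
  prob : IsProbabilityMeasure ν
  lim : ∃ s : ℕ → ℕ, Tendsto s atTop atTop ∧ ∀ F : (LinkZ d → G) → ℝ, Continuous F →
    Tendsto (fun j => expect (2 * (s j + 1)) μ β F) atTop (𝓝 (∫ V, F V ∂ν))

/-- The plaquette variable `Re tr U_p` of the plaquette at `x` in the directions `i`, `j`. -/
def plaqVar (V : LinkZ d → G) (x : Fin d → ℤ) (i j : Fin d) : ℝ :=
  (trace (mt (V (x, i) * V (x + Pi.single i 1, j) * (V (x + Pi.single j 1, i))⁻¹ *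
    (V (x, j))⁻¹))).re

/-- The connected correlation of the plaquette variables in the directions `i`, `j` at the sites `0`
and `t e_τ`. -/
def corr [MeasurableSpace G] (ν : Measure (LinkZ d → G)) (i j τ : Fin d) (t : ℕ) : ℝ :=
  ∫ V, plaqVar V 0 i j * plaqVar V (Pi.single τ (t : ℤ)) i j ∂ν -
    (∫ V, plaqVar V 0 i j ∂ν) * ∫ V, plaqVar V (Pi.single τ (t : ℤ)) i j ∂ν

end

/-- The effective mass of the correlation `C` at the time `t`. -/
def effMass (C : ℕ → ℝ) (t : ℕ) : ℝ := Real.log (C t / C (t + 1))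

/-- `m` is the mass of the correlation `C`, that is `C(t) = exp (- m t + o(t))`. -/
def IsMass (C : ℕ → ℝ) (m : ℝ) : Prop :=
  Tendsto (fun t : ℕ => -Real.log (C t) / t) atTop (𝓝 m)

/-- `r` is the scale of the correlation `C`: the least time `t ≥ 1` at which `t` times the effective
mass is at least `c`. -/
def IsScale (C : ℕ → ℝ) (c : ℝ) (r : ℕ) : Prop := IsLeast {t : ℕ | 1 ≤ t ∧ c ≤ t * effMass C t} r

/-- The correlation function with the spectral measure `σ`, normalised to `1` at the time `1`. -/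
def laplace (σ : Measure ℝ) (x : ℝ) : ℝ := ∫ E, Real.exp (-(E * (x - 1))) ∂σ

open Pool.Agent.H906R3 Pool.Agent.W793 Pool.Agent.TH618 Pool.Agent.W2helper67 Pool.Agent
open Pool.Agent.W2helper10.CS Pool.Agent.W2helper10.HS Pool.Agent.W2helper10.GS

variable {N n d l : ℕ} {G : Subgroup (UU N)}

lemma infVol_conv [MeasurableSpace G] {μ : Measure G} {β : ℝ} {ν : Measure (LinkZ d → G)}
    (h : IsInfVol μ β ν) : MaxwellCorrelations.IsInfVol μ β ν := ⟨h.prob, h.lim⟩

/-- the steps around a plaquette -/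
def pp (i j : Fin d) : List (Fin d × Bool) := [(i, true), (j, true), (i, false), (j, false)]

lemma loop_pp (V : LinkZ d → G) (x : Fin d → ℤ) (i j : Fin d) :
    MaxwellCorrelations.loopVar V x (pp i j) = plaqVar V x i j := by
  unfold MaxwellCorrelations.loopVar plaqVar pp
  simp only [MaxwellCorrelations.hol, MaxwellCorrelations.step, if_true, Bool.false_eq_true,
    if_false, mul_one]
  have e1 : x + Pi.single i 1 + Pi.single j 1 - Pi.single i 1 = x + Pi.single j 1 := by abel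
  have e2 : x + Pi.single i 1 + Pi.single j 1 + -Pi.single i 1 - Pi.single j 1 = x := by abel
  rw [e1, e2]
  simp only [mul_assoc]
  rfl

lemma closed_pp (i j : Fin d) : MaxwellCorrelations.Closed (pp i j) := by
  unfold MaxwellCorrelations.Closed pp
  simp only [MaxwellCorrelations.step, List.map_cons, List.map_nil, List.sum_cons, List.sum_nil,
    if_true, Bool.false_eq_true, if_false]
  abel

lemma green_eq (x : Fin d → ℤ) : MaxwellCorrelations.green x = YM.gr x := rfl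

lemma cov_pp {i j : Fin d} (hij : i ≠ j) (y : Fin d → ℤ) :
    MaxwellCorrelations.cov 0 (pp i j) y (pp i j) = W2helper10.MK.KK j i (-y) := by
  unfold MaxwellCorrelations.cov pp W2helper10.MK.KK
  simp only [MaxwellCorrelations.links, MaxwellCorrelations.step, List.map_cons, List.map_nil,
    List.sum_cons, List.sum_nil, if_true, Bool.false_eq_true, if_false, hij, hij.symm, green_eq]
  have e1 : ∀ z : Fin d → ℤ, z + Pi.single i 1 + Pi.single j 1 - Pi.single i 1 =
      z + Pi.single j 1 := fun z => by abel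
  have e2 : ∀ z : Fin d → ℤ, z + Pi.single i 1 + Pi.single j 1 + -Pi.single i 1 -
      Pi.single j 1 = z := fun z => by abel
  simp only [e1, e2]
  have f1 : (0 : Fin d → ℤ) - y = -y := by abel
  have f2 : (0 : Fin d → ℤ) - (y + Pi.single j 1) = -y - Pi.single j 1 := by abel
  have f3 : (0 : Fin d → ℤ) + Pi.single i 1 - (y + Pi.single i 1) = -y := by abel
  have f4 : (0 : Fin d → ℤ) + Pi.single i 1 - y = -y + Pi.single i 1 := by abel
  have f5 : (0 : Fin d → ℤ) + Pi.single j 1 - y = -y + Pi.single j 1 := by abel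
  have f6 : (0 : Fin d → ℤ) + Pi.single j 1 - (y + Pi.single j 1) = -y := by abel
  have f7 : (0 : Fin d → ℤ) - (y + Pi.single i 1) = -y - Pi.single i 1 := by abel
  simp only [f1, f2, f3, f4, f5, f6, f7]
  ring

/-- A Haar probability measure is invariant under right multiplications. -/
lemma right_inv {H : Type*} [Group H] [TopologicalSpace H] [IsTopologicalGroup H]
    [CompactSpace H] [MeasurableSpace H] [BorelSpace H] (μ : Measure H)
    [IsProbabilityMeasure μ] [μ.IsHaarMeasure] : μ.IsMulRightInvariant :=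
  MaxwellCorrelations.right_inv μ

/-- A Haar probability measure is invariant under the inversion. -/
lemma inv_inv' {H : Type*} [Group H] [TopologicalSpace H] [IsTopologicalGroup H]
    [CompactSpace H] [MeasurableSpace H] [BorelSpace H] (μ : Measure H)
    [IsProbabilityMeasure μ] [μ.IsHaarMeasure] : μ.IsInvInvariant :=
  MaxwellCorrelations.inv_inv' μ

section bridge

variable [CompactSpace G] [SecondCountableTopology G] [MeasurableSpace G] [BorelSpace G]
  (μ : Measure G) [IsProbabilityMeasure μ] [μ.IsHaarMeasure] (B : YM.Frame G n)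

lemma expect_eq [NeZero l] (β : ℝ) (F : (LinkZ d → G) → ℝ) : expect l μ β F =
    YM.EX μ B.toLD β (fun U : YM.Ed d l → G => F (YM.lf U)) := by
  unfold expect YM.EX YM.Zt
  simp only [one_mul]
  rfl

lemma plaqVar_cont (x : Fin d → ℤ) (i j : Fin d) :
    Continuous fun V : LinkZ d → G => plaqVar V x i j := by
  have h := MaxwellCorrelations.loopVar_cont (G := G) x (pp i j)
  simpa only [loop_pp] using h

lemma plaqVar_lf (U : YM.Ed d l → G) (x : Fin d → ℤ) (i j : Fin d) :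
    plaqVar (YM.lf U) x i j = YM.rt B.toLD (YM.plqT U (YM.zt l x) i j) := by
  unfold plaqVar YM.plqT
  rw [← YM.zt_add, ← YM.zt_add]
  rfl

lemma zt_single (τ : Fin d) (t : ℕ) :
    YM.zt l (Pi.single τ (t : ℤ)) = W793.YM.sv τ (t : ZMod l) := by
  funext k
  unfold YM.zt W793.YM.sv
  by_cases h : k = τ
  · subst h; simp
  · simp [h]

/-- the connected correlation on the torus -/
lemma cc_torus [NeZero l] (β : ℝ) (i j τ : Fin d) (t : ℕ) :
    W2helper10.CP.cc μ B.toLD β τ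
      (fun U : YM.Ed d l → G => YM.rt B.toLD (YM.plqT U 0 i j)) (t : ZMod l) =
    expect l μ β (fun V : LinkZ d → G => plaqVar V 0 i j * plaqVar V (Pi.single τ (t : ℤ)) i j) -
      expect l μ β (fun V : LinkZ d → G => plaqVar V 0 i j) *
        expect l μ β (fun V : LinkZ d → G => plaqVar V (Pi.single τ (t : ℤ)) i j) := by
  have := right_inv μ
  have := inv_inv' μ
  rw [expect_eq μ B, expect_eq μ B, expect_eq μ B]
  simp only [plaqVar_lf B, zt_single]
  have hz : YM.zt l (0 : Fin d → ℤ) = 0 := by funext k; simp [YM.zt]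
  rw [hz]
  have e1 : ∀ U : YM.Ed d l → G, YM.rt B.toLD (YM.plqT U (W793.YM.sv τ (t : ZMod l)) i j) =
      W2helper10.CP.Ft τ (fun U : YM.Ed d l → G => YM.rt B.toLD (YM.plqT U 0 i j))
        (t : ZMod l) U := by
    intro U
    unfold W2helper10.CP.Ft
    simp only
    rw [YM.plqT_tr, zero_add]
  simp only [e1]
  have e2 : YM.EX μ B.toLD β (fun U : YM.Ed d l → G => W2helper10.CP.Ft τ
      (fun U : YM.Ed d l → G => YM.rt B.toLD (YM.plqT U 0 i j)) (t : ZMod l) U) =
      YM.EX μ B.toLD β (fun U : YM.Ed d l → G => YM.rt B.toLD (YM.plqT U 0 i j)) :=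
    YM.EX_tr μ (W793.YM.sv τ (t : ZMod l))
      (fun U : YM.Ed d l → G => YM.rt B.toLD (YM.plqT U 0 i j))
  rw [e2]
  unfold W2helper10.CP.cc
  ring

include B in
/-- the positivity of the correlation in the infinite volume -/
lemma hk_corr {β : ℝ} (hβ : 0 ≤ β) {ν : Measure (LinkZ d → G)} (hν : IsInfVol μ β ν)
    {i j τ : Fin d} (hi : i ≠ τ) (hj : j ≠ τ) : Hk (corr ν i j τ) := by
  have := right_inv μ
  have := inv_inv' μ
  have := hν.prob
  obtain ⟨s, hs, hlim⟩ := hν.lim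
  have hc := fun x : Fin d → ℤ => plaqVar_cont (G := G) x i j
  have hl : ∀ t : ℕ, Tendsto (fun k => W2helper10.CP.cc μ B.toLD β τ
      (fun U : YM.Ed d (2 * (s k + 1)) → G => YM.rt B.toLD (YM.plqT U 0 i j))
      (t : ZMod (2 * (s k + 1)))) atTop (𝓝 (corr ν i j τ t)) := by
    intro t
    simp only [cc_torus μ B]
    exact (hlim _ ((hc _).mul (hc _))).sub ((hlim _ (hc _)).mul (hlim _ (hc _)))
  have hbig : ∀ b : ℕ, ∀ᶠ k in atTop, b ≤ s k := fun b => hs.eventually_ge_atTop b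
  have hsup : ∀ (ι : Type) (S : Finset ι) (k : ι → ℕ), ∃ b, ∀ a ∈ S, k a ≤ b := fun ι S k =>
    ⟨∑ a ∈ S, k a, fun a ha => Finset.single_le_sum (fun _ _ => Nat.zero_le _) ha⟩
  refine ⟨fun ι S z k => ?_, fun ι S z k => ?_, ?_⟩
  · obtain ⟨b, hb⟩ := hsup ι S k
    have h1 := tendsto_finsetSum S fun a _ => tendsto_finsetSum S fun a' _ =>
      (hl (k a + k a')).const_mul (z a * z a')
    refine ge_of_tendsto h1 ?_
    filter_upwards [hbig (b + 1)] with q hq
    exact W2helper10.CP.cc_site μ (L := B.toLD) (by omega) (W2helper10.CP.plq_cont 0)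
      (W2helper10.CP.plq_sp hi hj) S z k fun a ha => by have := hb a ha; omega
  · obtain ⟨b, hb⟩ := hsup ι S k
    have h1 := tendsto_finsetSum S fun a _ => tendsto_finsetSum S fun a' _ =>
      (hl (k a + k a' + 1)).const_mul (z a * z a')
    refine ge_of_tendsto h1 ?_
    filter_upwards [hbig (b + 1)] with q hq
    exact W2helper10.CP.cc_link μ (L := B.toLD) (by omega) hβ (W2helper10.CP.plq_cont 0)
      (W2helper10.CP.plq_gi 0) (W2helper10.CP.plq_sp hi hj) S z k
      fun a ha => by have := hb a ha; omega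
  · have hN : ∀ (V : LinkZ d → G) (x : Fin d → ℤ), |plaqVar V x i j| ≤ N := by
      intro V x
      unfold plaqVar
      obtain ⟨g, hg⟩ : ∃ g : G, g = V (x, i) * V (x + Pi.single i 1, j) *
        (V (x + Pi.single j 1, i))⁻¹ * (V (x, j))⁻¹ := ⟨_, rfl⟩
      rw [← hg]
      refine (Complex.abs_re_le_norm _).trans ((norm_sum_le _ _).trans ?_)
      calc ∑ a, ‖(mt g).diag a‖ ≤ ∑ _a : Fin N, (1 : ℝ) := Finset.sum_le_sum fun a _ =>
            entry_norm_bound_of_unitary (g : UU N).2 a a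
        _ = N := by simp
    have hb : ∀ F : (LinkZ d → G) → ℝ, ∀ M : ℝ, (∀ V, |F V| ≤ M) → |∫ V, F V ∂ν| ≤ M := by
      intro F M h
      have := norm_integral_le_of_norm_le_const (μ := ν) (f := F) (C := M)
        (Filter.Eventually.of_forall fun V => h V)
      simpa using this
    refine ⟨N * N + N * N, fun t => ?_⟩
    have hN0 : (0 : ℝ) ≤ N := Nat.cast_nonneg N
    refine (abs_sub _ _).trans (add_le_add (hb _ _ fun V => ?_) ?_)
    · rw [abs_mul]
      exact mul_le_mul (hN V _) (hN V _) (abs_nonneg _) hN0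
    · rw [abs_mul]
      exact mul_le_mul (hb _ _ fun V => hN V _) (hb _ _ fun V => hN V _) (abs_nonneg _) hN0

end bridge

/-- the correlation at weak coupling -/
lemma weak (hd : 3 ≤ d) : ∃ κ : ℝ, 0 < κ ∧ ∀ {N : ℕ} (G : Subgroup (UU N))
    (_ : IsClosed (G : Set (UU N))) [MeasurableSpace G] [BorelSpace G] (μ : Measure G)
    [IsProbabilityMeasure μ] [μ.IsHaarMeasure], ∃ C : ℝ, 0 < C ∧
    ∀ {i j τ : Fin d} (_ : i ≠ j) {β : ℕ → ℝ} {ν : ℕ → Measure (LinkZ d → G)}
    (_ : Tendsto β atTop atTop) (_ : ∀ k, IsInfVol μ (β k) (ν k)),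
    ∀ᶠ k in atTop, ∀ t : ℕ, (t : ℝ) ≤ β k ^ κ →
      |β k ^ 2 * corr (ν k) i j τ t -
        dimG G / 2 * W2helper10.MK.KK j i (-Pi.single τ (t : ℤ)) ^ 2| ≤ C * β k ^ (-κ) := by
  obtain ⟨κ, hκ, h⟩ := MaxwellCorrelations.result hd 2
  refine ⟨κ, hκ, fun {N} G hG _ _ μ _ _ => ?_⟩
  obtain ⟨C, β₀, hC, -, hmain⟩ := h G hG μ
  refine ⟨C, hC, fun {i j τ} hij {β ν} hβ hν => ?_⟩
  have hpow : Tendsto (fun k => β k ^ κ) atTop atTop := (tendsto_rpow_atTop hκ).comp hβ
  filter_upwards [hβ.eventually_ge_atTop β₀, hpow.eventually_ge_atTop 4] with k h1 h2 t h3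
  have h4 := ((hmain (β k) h1).1 (ν k) (infVol_conv (hν k))).2 0 (Pi.single τ (t : ℤ))
    (pp i j) (pp i j) ⟨0, fun a => ?_⟩
  · rw [cov_pp hij] at h4
    have e : MaxwellCorrelations.connected (ν k) 0 (pp i j) (Pi.single τ (t : ℤ)) (pp i j) =
        corr (ν k) i j τ t := by
      unfold MaxwellCorrelations.connected corr
      simp only [loop_pp]
    rw [e] at h4
    exact h4
  · have hlen : ((pp i j).length : ℝ) ≤ β k ^ κ := by
      refine le_trans (le_of_eq ?_) h2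
      unfold pp
      simp
    refine Fin.cases ?_ (fun a' => ?_) a
    · refine ⟨closed_pp i j, hlen, fun q => ?_⟩
      simp only [Matrix.cons_val_zero, Pi.zero_apply, sub_zero, abs_zero, Int.cast_zero]
      linarith
    · have : a' = 0 := Subsingleton.elim _ _
      subst this
      refine ⟨closed_pp i j, hlen, fun q => ?_⟩
      simp only [Fin.succ_zero_eq_one, Matrix.cons_val_one, Matrix.cons_val_zero, Pi.zero_apply,
        sub_zero]
      by_cases hq : q = τ
      · subst hq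
        simpa using h3
      · simp only [Pi.single_eq_of_ne hq, abs_zero, Int.cast_zero]
        linarith

/-- the lower bound of the correlation of the free field -/
lemma K_low {K : ℕ → ℝ} {Q : ℝ} (hQ : 1 ≤ Q) {p : ℕ} (hp : Q ≤ 2 ^ p)
    (hK : ∀ t, 0 < K t ∧ K t ≤ Q * K (2 * t)) (hKa : ∀ t, K (t + 1) ≤ K t) {t : ℕ}
    (ht : 1 ≤ t) : K 1 ≤ (2 * t) ^ p * K t := by
  have h1 : ∀ n : ℕ, K 1 ≤ Q ^ n * K (2 ^ n) := by
    intro n
    induction n with
    | zero => simp
    | succ n ih =>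
      have h2 := (hK (2 ^ n)).2
      have h3 := mul_le_mul_of_nonneg_left h2 (by positivity : 0 ≤ Q ^ n)
      refine ih.trans (h3.trans (le_of_eq ?_))
      rw [pow_succ, pow_succ, mul_comm (2 ^ n) 2]
      ring
  obtain ⟨n, hn⟩ : ∃ n, n = Nat.log 2 t + 1 := ⟨_, rfl⟩
  have h2 : t ≤ 2 ^ n := by rw [hn]; exact (Nat.lt_pow_succ_log_self (by norm_num) t).le
  have h3 : 2 ^ n ≤ 2 * t := by
    rw [hn, pow_succ, mul_comm]
    exact Nat.mul_le_mul_left 2 (Nat.pow_log_le_self 2 (by omega))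
  have h4 : K (2 ^ n) ≤ K t := antitone_nat_of_succ_le hKa h2
  have h5 : Q ^ n ≤ (2 * t : ℝ) ^ p := by
    calc Q ^ n ≤ ((2 : ℝ) ^ p) ^ n := pow_le_pow_left₀ (by linarith) hp n
      _ = ((2 : ℝ) ^ n) ^ p := by rw [← pow_mul, ← pow_mul, mul_comm]
      _ ≤ _ := by
        refine pow_le_pow_left₀ (by positivity) ?_ p
        exact_mod_cast h3
  exact (h1 n).trans (mul_le_mul h5 h4 (hK _).1.le (by positivity))

/-- the relative error at weak coupling -/
lemma rel_err {C : ℕ → ℕ → ℝ} {K : ℕ → ℝ} {β : ℕ → ℝ} {D Q C' κ : ℝ} (hκ : 0 < κ) (hD : 0 < D)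
    (hQ : 1 ≤ Q) {p : ℕ} (hp : Q ≤ 2 ^ p) (hp0 : 1 ≤ p)
    (hK : ∀ t, 0 < K t ∧ K t ≤ Q * K (2 * t)) (hKa : ∀ t, K (t + 1) ≤ K t)
    (hβ : Tendsto β atTop atTop)
    (hlim : ∀ᶠ k in atTop, ∀ t : ℕ, (t : ℝ) ≤ β k ^ κ →
      |β k ^ 2 * C k t - D * K t ^ 2| ≤ C' * β k ^ (-κ)) :
    ∀ᶠ k in atTop, ∀ v : ℕ, 1 ≤ v → (v : ℝ) ≤ 2 * β k ^ (κ / (4 * p)) →
      |β k ^ 2 * C k v - D * K v ^ 2| ≤ D * K v ^ 2 / 13 := by
  have hpR : (1 : ℝ) ≤ p := by exact_mod_cast hp0
  have hκ4 : κ / (4 * p) ≤ κ / 4 := by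
    refine div_le_div_of_nonneg_left hκ.le (by norm_num) (by linarith)
  have hpow : Tendsto (fun k => β k ^ (κ / 2)) atTop atTop :=
    (tendsto_rpow_atTop (by positivity)).comp hβ
  have hpow2 : Tendsto (fun k => β k ^ (κ / 4)) atTop atTop :=
    (tendsto_rpow_atTop (by positivity)).comp hβ
  have hK1 := (hK 1).1
  filter_upwards [hlim, hβ.eventually_ge_atTop 1,
    hpow.eventually_ge_atTop (13 * C' * 4 ^ (2 * p) / (D * K 1 ^ 2)),
    hpow2.eventually_ge_atTop 2] with k h1 h2 h3 h4 v hv hvβ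
  have hβ0 : 0 < β k := by linarith
  rw [div_le_iff₀ (by positivity)] at h3
  have h5 : β k ^ (κ / (4 * p)) ≤ β k ^ (κ / 4) := Real.rpow_le_rpow_of_exponent_le h2 hκ4
  have h6 : (v : ℝ) ≤ β k ^ κ := by
    have e : β k ^ κ = β k ^ (κ / 4) * β k ^ (3 * κ / 4) := by
      rw [← Real.rpow_add hβ0]; congr 1; ring
    have h7 : β k ^ (κ / 4) ≤ β k ^ (3 * κ / 4) :=
      Real.rpow_le_rpow_of_exponent_le h2 (by linarith)
    have h8 : 0 < β k ^ (κ / 4) := Real.rpow_pos_of_pos hβ0 _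
    rw [e]
    calc (v : ℝ) ≤ 2 * β k ^ (κ / (4 * p)) := hvβ
      _ ≤ β k ^ (κ / 4) * β k ^ (κ / 4) := mul_le_mul h4 h5 (Real.rpow_pos_of_pos hβ0 _).le h8.le
      _ ≤ _ := mul_le_mul_of_nonneg_left h7 h8.le
  refine (h1 v h6).trans ?_
  have hv0 : (0 : ℝ) ≤ v := Nat.cast_nonneg v
  have h7 : ((2 : ℝ) * v) ^ (2 * p) ≤ 4 ^ (2 * p) * β k ^ (κ / 2) := by
    have e : β k ^ (κ / 2) = (β k ^ (κ / (4 * p))) ^ (2 * p) := by
      rw [← Real.rpow_natCast, ← Real.rpow_mul hβ0.le]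
      congr 1
      push_cast
      field_simp
      ring
    rw [e, ← mul_pow]
    refine pow_le_pow_left₀ (by positivity) ?_ _
    linarith
  have h8 : K 1 ^ 2 ≤ ((2 : ℝ) * v) ^ (2 * p) * K v ^ 2 := by
    have h9 := pow_le_pow_left₀ hK1.le (K_low hQ hp hK hKa hv) 2
    rw [mul_pow, ← pow_mul, mul_comm p 2] at h9
    exact h9
  have hneg : β k ^ (-κ) = (β k ^ (κ / 2) * β k ^ (κ / 2))⁻¹ := by
    rw [← Real.rpow_add hβ0, ← Real.rpow_neg hβ0.le]
    congr 1; ring
  have hb := Real.rpow_pos_of_pos hβ0 (κ / 2)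
  rw [hneg, ← div_eq_mul_inv, div_le_iff₀ (by positivity)]
  obtain ⟨b, hbdef⟩ : ∃ b, b = β k ^ (κ / 2) := ⟨_, rfl⟩
  rw [← hbdef] at h3 h7 hb ⊢
  have hKv := (hK v).1
  -- 13 C' 4^(2p) ≤ b D K1^2, K1^2 ≤ (2v)^(2p) Kv^2 ≤ 4^(2p) b Kv^2
  have h9 : K 1 ^ 2 ≤ 4 ^ (2 * p) * b * K v ^ 2 :=
    h8.trans (mul_le_mul_of_nonneg_right h7 (by positivity))
  have h10 : b * (D * K 1 ^ 2) ≤ b * (D * (4 ^ (2 * p) * b * K v ^ 2)) := by gcongr
  have h11 : 13 * C' * 4 ^ (2 * p) ≤ 4 ^ (2 * p) * (D * K v ^ 2 * (b * b)) := by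
    refine h3.trans (h10.trans (le_of_eq ?_))
    ring
  have h12 : (4 : ℝ) ^ (2 * p) * (13 * C') ≤ 4 ^ (2 * p) * (D * K v ^ 2 * (b * b)) := by
    linarith
  have h13 := le_of_mul_le_mul_left h12 (by positivity)
  linarith

/-- the effective mass at weak coupling -/
lemma weak_eff {C : ℕ → ℝ} {K : ℕ → ℝ} {β D Q T : ℝ} (hD : 0 < D) (hQ : 1 ≤ Q)
    (hK : ∀ t, 0 < K t ∧ K t ≤ Q * K (2 * t)) (hβ : 0 < β) (hT : 1 ≤ T)
    (h : ∀ v : ℕ, 1 ≤ v → (v : ℝ) ≤ 2 * T → |β ^ 2 * C v - D * K v ^ 2| ≤ D * K v ^ 2 / 13)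
    (hH : Hk C) (hp : ∀ t, 0 < C t) {t : ℕ} (ht : 1 ≤ t) (htT : (t : ℝ) ≤ T) :
    (t : ℝ) * effMass C t < 6 * Real.log Q + 1 := by
  have hQ0 : 0 ≤ Real.log Q := Real.log_nonneg hQ
  have hv := cv_C hH hp
  have key : ∀ u : ℕ, 1 ≤ u → ((2 * u : ℕ) : ℝ) ≤ 2 * T →
      Vc C (2 * u) - Vc C u < 2 * Real.log Q + 1 / 6 := by
    intro u hu huT
    have hu' : (u : ℝ) ≤ 2 * T := by
      push_cast at huT
      have : (0 : ℝ) ≤ u := Nat.cast_nonneg u
      linarith
    have a1 := h u hu hu'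
    have a2 := h (2 * u) (by omega) huT
    rw [abs_le] at a1 a2
    have h3 := (hK (2 * u)).1
    have h4 : K u ^ 2 ≤ (Q * K (2 * u)) ^ 2 := pow_le_pow_left₀ (hK u).1.le (hK u).2 2
    have hb2 : 0 < β ^ 2 := pow_pos hβ 2
    have h5 : C u ≤ 7 / 6 * Q ^ 2 * C (2 * u) := by
      have h6 : D * K u ^ 2 ≤ D * (Q * K (2 * u)) ^ 2 := mul_le_mul_of_nonneg_left h4 hD.le
      have h7 : β ^ 2 * C u ≤ β ^ 2 * (7 / 6 * Q ^ 2 * C (2 * u)) := by
        have h8 : Q ^ 2 * (12 / 13 * (D * K (2 * u) ^ 2)) ≤ Q ^ 2 * (β ^ 2 * C (2 * u)) :=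
          mul_le_mul_of_nonneg_left (by linarith [a2.1]) (by positivity)
        calc β ^ 2 * C u ≤ 14 / 13 * (D * K u ^ 2) := by linarith [a1.2]
          _ ≤ 14 / 13 * (D * (Q * K (2 * u)) ^ 2) := by linarith
          _ = 7 / 6 * (Q ^ 2 * (12 / 13 * (D * K (2 * u) ^ 2))) := by ring
          _ ≤ 7 / 6 * (Q ^ 2 * (β ^ 2 * C (2 * u))) := by linarith
          _ = _ := by ring
      exact le_of_mul_le_mul_left h7 hb2
    have h6 := Real.log_le_log (hp u) h5
    rw [Real.log_mul (by positivity) (hp (2 * u)).ne', Real.log_mul (by norm_num)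
      (by positivity), Real.log_pow] at h6
    have h7 : Real.log (7 / 6) < 7 / 6 - 1 := Real.log_lt_sub_one_of_pos (by norm_num) (by norm_num)
    unfold Vc
    push_cast at h6
    linarith
  have e : effMass C t = inc (Vc C) t := eff_eq hp t
  rw [e]
  rcases Nat.lt_or_ge t 2 with h2 | h2
  · have h1 : t = 1 := by omega
    subst h1
    have := key 1 le_rfl (by push_cast; linarith)
    have e2 : inc (Vc C) 1 = Vc C (2 * 1) - Vc C 1 := rfl
    rw [e2]
    push_cast
    linarith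
  · obtain ⟨u, hu⟩ : ∃ u, u = t / 2 := ⟨_, rfl⟩
    have hu1 : 1 ≤ u := by omega
    have hu2 : 2 * u ≤ t := by omega
    have hu3 : t ≤ 3 * u := by omega
    have hk := key u hu1 (by
      have : ((2 * u : ℕ) : ℝ) ≤ t := by exact_mod_cast hu2
      linarith)
    have h3 := hv.anti hu2
    have h4 := hv.low (show u ≤ 2 * u by omega)
    have h5 := hv.inc_nn (2 * u)
    have hu3' : (t : ℝ) ≤ 3 * u := by exact_mod_cast hu3
    have h6 : (t : ℝ) * inc (Vc C) t ≤ 3 * u * inc (Vc C) (2 * u) :=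
      mul_le_mul hu3' h3 (hv.inc_nn t) (by positivity)
    push_cast at h4
    nlinarith

/-- Jensen's inequality for the correlation of a theory of mean energy `c`. -/
lemma laplace_low {σ : Measure ℝ} [IsProbabilityMeasure σ] {c : ℝ}
    (h1 : Integrable (fun E : ℝ => E) σ) (h2 : ∫ E, E ∂σ = c)
    (h3 : ∀ x : ℝ, 0 < x → Integrable (fun E : ℝ => Real.exp (-(E * (x - 1)))) σ) {x : ℝ}
    (hx : 0 < x) : Real.exp (c * (1 - x)) ≤ laplace σ x := by
  have i1 : Integrable (fun E : ℝ => E * (1 - x) - c * (1 - x)) σ :=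
    (h1.mul_const _).sub (integrable_const _)
  have i2 : Integrable (fun E : ℝ => 1 + (E * (1 - x) - c * (1 - x))) σ :=
    (integrable_const _).add i1
  have e0 : ∫ E, (E * (1 - x) - c * (1 - x)) ∂σ = 0 := by
    rw [integral_sub (h1.mul_const _) (integrable_const _), integral_mul_const, h2]
    simp
  have e1 : Real.exp (c * (1 - x)) =
      ∫ E, Real.exp (c * (1 - x)) * (1 + (E * (1 - x) - c * (1 - x))) ∂σ := by
    rw [integral_const_mul, integral_add (integrable_const _) i1, e0]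
    simp
  rw [e1]
  unfold laplace
  refine integral_mono (i2.const_mul _) (h3 x hx) fun E => ?_
  have h4 := Real.add_one_le_exp (E * (1 - x) - c * (1 - x))
  calc Real.exp (c * (1 - x)) * (1 + (E * (1 - x) - c * (1 - x)))
      ≤ Real.exp (c * (1 - x)) * Real.exp (E * (1 - x) - c * (1 - x)) :=
        mul_le_mul_of_nonneg_left (by linarith) (Real.exp_pos _).le
    _ = Real.exp (-(E * (x - 1))) := by
        rw [← Real.exp_add]
        congr 1
        ring

lemma two_pow_lt {d : ℕ} (_ : 3 ≤ d) {c : ℝ}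
    (hc : 6 * Real.log (5 / 2 * ((d : ℝ) + 3) ^ (d + 1)) + 1 ≤ c) :
    (2 : ℝ) ^ (2 * d) < Real.exp (c * (1 / 2)) := by
  have hd0 : (0 : ℝ) ≤ d := Nat.cast_nonneg d
  have hQ : 0 < 5 / 2 * ((d : ℝ) + 3) ^ (d + 1) := by positivity
  have h1 : Real.exp (3 * Real.log (5 / 2 * ((d : ℝ) + 3) ^ (d + 1))) <
      Real.exp (c * (1 / 2)) := Real.exp_lt_exp.2 (by linarith)
  have h2 : Real.exp (3 * Real.log (5 / 2 * ((d : ℝ) + 3) ^ (d + 1))) =
      (5 / 2 * ((d : ℝ) + 3) ^ (d + 1)) ^ 3 := by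
    rw [show (3 : ℝ) * Real.log (5 / 2 * ((d : ℝ) + 3) ^ (d + 1)) =
      (3 : ℕ) * Real.log (5 / 2 * ((d : ℝ) + 3) ^ (d + 1)) by norm_num, Real.exp_nat_mul,
      Real.exp_log hQ]
  rw [h2] at h1
  refine lt_of_le_of_lt ?_ h1
  have h3 : (2 : ℝ) ^ (d + 1) ≤ 5 / 2 * ((d : ℝ) + 3) ^ (d + 1) := by
    have := pow_le_pow_left₀ (by norm_num : (0 : ℝ) ≤ 2) (by linarith : (2 : ℝ) ≤ (d : ℝ) + 3)
      (d + 1)
    have h4 : (0 : ℝ) ≤ ((d : ℝ) + 3) ^ (d + 1) := by positivity
    linarith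
  calc (2 : ℝ) ^ (2 * d) ≤ 2 ^ ((d + 1) * 3) := pow_le_pow_right₀ (by norm_num) (by omega)
    _ = (2 ^ (d + 1)) ^ 3 := by rw [pow_mul]
    _ ≤ _ := pow_le_pow_left₀ (by positivity) h3 3

theorem result {d : ℕ} (hd : 3 ≤ d) : ∃ c₀ κ₀ : ℝ, 0 < c₀ ∧ 0 < κ₀ ∧
    ∀ {N : ℕ} (G : Subgroup (UU N)) (_ : IsClosed (G : Set (UU N))) (_ : 1 ≤ dimG G)
    [MeasurableSpace G] [BorelSpace G] (μ : Measure G) [IsProbabilityMeasure μ] [μ.IsHaarMeasure]
    (i j τ : Fin d), i ≠ j → i ≠ τ → j ≠ τ → ∀ (β : ℕ → ℝ) (ν : ℕ → Measure (LinkZ d → G)),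
    Tendsto β atTop atTop → (∀ k, IsInfVol μ (β k) (ν k)) →
    ∃ (k₀ : ℕ) (m : ℕ → ℝ),
      -- the correlations, the masses and the effective masses
      (∀ k, k₀ ≤ k → 0 ≤ m k ∧ IsMass (corr (ν k) i j τ) (m k) ∧
        (∀ t, 0 < corr (ν k) i j τ t ∧ m k ≤ effMass (corr (ν k) i j τ) t ∧
          effMass (corr (ν k) i j τ) (t + 1) ≤ effMass (corr (ν k) i j τ) t) ∧
        ∀ t : ℕ, 1 ≤ t → (t : ℝ) ≤ β k ^ κ₀ → t * effMass (corr (ν k) i j τ) t < c₀) ∧
      ∀ c : ℝ, c₀ ≤ c →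
        -- the theories without a scale
        (∀ k, k₀ ≤ k → (∀ r, ¬ IsScale (corr (ν k) i j τ) c r) → m k = 0 ∧
          ∀ t t' : ℕ, 2 ≤ t → t ≤ t' →
            (((t : ℝ) - 1) / ((t' : ℝ) - 1)) ^ c * corr (ν k) i j τ t ≤ corr (ν k) i j τ t') ∧
        -- the scale
        (∀ k r, k₀ ≤ k → IsScale (corr (ν k) i j τ) c r → β k ^ κ₀ < r ∧ m k * (r - 1) ≤ c) ∧
        -- the continuum limits
        ∀ (κ r : ℕ → ℕ), StrictMono κ → (∀ n, IsScale (corr (ν (κ n)) i j τ) c (r n)) →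
          ∃ (φ : ℕ → ℕ) (s : ℝ) (σ : Measure ℝ), StrictMono φ ∧ IsProbabilityMeasure σ ∧
            (∀ a b : ℝ, 0 < a → a ≤ b → TendstoUniformlyOn
              (fun n (x : ℝ) => corr (ν (κ (φ n))) i j τ ⌊x * r (φ n)⌋₊ /
                corr (ν (κ (φ n))) i j τ (r (φ n))) (laplace σ) atTop (Set.Icc a b)) ∧
            Tendsto (fun n => m (κ (φ n)) * r (φ n)) atTop (𝓝 s) ∧ 0 ≤ s ∧ s ≤ c ∧
            σ (Set.Iio s) = 0 ∧ Integrable (fun E : ℝ => E) σ ∧ ∫ E, E ∂σ = c ∧
            (∀ x : ℝ, 0 < x → Integrable (fun E : ℝ => Real.exp (-(E * (x - 1)))) σ) ∧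
            (∀ x y : ℝ, 0 < x → x ≤ y → y ≤ 1 → laplace σ x ≤ (y / x) ^ c * laplace σ y) ∧
            -- the limit is not the correlation `x ^ (- 2 d)` of the free (Maxwell) theory
            (∀ x : ℝ, 0 < x → Real.exp (c * (1 - x)) ≤ laplace σ x) ∧
            (2 : ℝ) ^ (2 * d) < laplace σ (1 / 2) := by
  obtain ⟨Q, hQ⟩ : ∃ Q : ℝ, Q = 5 / 2 * ((d : ℝ) + 3) ^ (d + 1) := ⟨_, rfl⟩
  have hQ1 : 1 ≤ Q := by
    have h1 : (1 : ℝ) ≤ (d : ℝ) + 3 := by
      have := Nat.cast_nonneg (α := ℝ) d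
      linarith
    have h2 := one_le_pow₀ h1 (n := d + 1)
    rw [hQ]
    linarith
  have hlQ : 0 ≤ Real.log Q := Real.log_nonneg hQ1
  obtain ⟨p, hp0, hpQ⟩ : ∃ p : ℕ, 1 ≤ p ∧ Q ≤ 2 ^ p := by
    obtain ⟨n, hn⟩ := pow_unbounded_of_one_lt Q (by norm_num : (1 : ℝ) < 2)
    refine ⟨n + 1, by omega, hn.le.trans ?_⟩
    exact pow_le_pow_right₀ (by norm_num) (Nat.le_succ n)
  have hpR : (1 : ℝ) ≤ p := by exact_mod_cast hp0
  obtain ⟨κ₁, hκ₁, hweak⟩ := weak hd
  refine ⟨6 * Real.log Q + 1, κ₁ / (4 * p), by positivity, by positivity, ?_⟩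
  intro N G hG hG1 _ _ μ _ _ i j τ hij hi hj β ν hβ hν
  have : CompactSpace G := by
    have h1 : IsCompact (G : Set (UU N)) := hG.isCompact
    exact isCompact_iff_compactSpace.1 h1
  have h00 : SecondCountableTopology (UU N) := TopologicalSpace.Subtype.secondCountableTopology _
  have : SecondCountableTopology G := TopologicalSpace.Subtype.secondCountableTopology _
  obtain ⟨n, ⟨B⟩⟩ := YM.exists_frame hG
  obtain ⟨C, hCdef⟩ : ∃ C : ℕ → ℕ → ℝ, C = fun k => corr (ν k) i j τ := ⟨_, rfl⟩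
  have hCk : ∀ k, corr (ν k) i j τ = C k := fun k => by rw [hCdef]
  obtain ⟨K, hKdef⟩ : ∃ K : ℕ → ℝ, K = fun t : ℕ =>
      W2helper10.MK.KK j i (-Pi.single τ (t : ℤ)) := ⟨_, rfl⟩
  have hK : ∀ t, 0 < K t ∧ K t ≤ Q * K (2 * t) := fun t => by
    rw [hKdef, hQ]
    exact W2helper10.MK.KK_main hd hj hi hij.symm t
  have hKa : ∀ t, K (t + 1) ≤ K t := fun t => by
    rw [hKdef]
    exact W2helper10.MK.KK_anti hd hj hi hij.symm t
  have hD : (0 : ℝ) < (dimG G : ℝ) / 2 := by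
    have : (0 : ℝ) < (dimG G : ℝ) := by exact_mod_cast hG1
    positivity
  obtain ⟨C', hC', hw⟩ := hweak G hG μ
  have hlim : ∀ᶠ k in atTop, ∀ t : ℕ, (t : ℝ) ≤ β k ^ κ₁ →
      |β k ^ 2 * C k t - (dimG G : ℝ) / 2 * K t ^ 2| ≤ C' * β k ^ (-κ₁) := by
    rw [hKdef, hCdef]
    exact hw hij hβ hν
  have hrel := rel_err hκ₁ hD hQ1 hpQ hp0 hK hKa hβ hlim
  have hβ0 := hβ.eventually_gt_atTop 0
  have hgood : ∀ᶠ k in atTop, Hk (C k) ∧ ∀ t, 0 < C k t := by
    have herr : Tendsto (fun k => C' * β k ^ (-κ₁)) atTop (𝓝 0) := by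
      have := ((tendsto_rpow_neg_atTop hκ₁).comp hβ).const_mul C'
      rwa [mul_zero] at this
    have p0 := herr.eventually (gt_mem_nhds (mul_pos hD (pow_pos (hK 0).1 2)))
    have p1 := herr.eventually (gt_mem_nhds (mul_pos hD (pow_pos (hK 1).1 2)))
    filter_upwards [hβ0, p0, p1, hlim, hβ.eventually_ge_atTop 1] with k k0 k1 k2 k3 k4
    have hk : Hk (C k) := by
      rw [← hCk]
      exact hk_corr μ B k0.le (hν k) hi hj
    refine ⟨hk, fun t => ?_⟩
    have hb2 : 0 < β k ^ 2 := pow_pos k0 2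
    have hb1 : 1 ≤ β k ^ κ₁ := Real.one_le_rpow k4 hκ₁.le
    have q0 := k3 0 (by push_cast; linarith)
    have q1 := k3 1 (by push_cast; exact hb1)
    rw [abs_le] at q0 q1
    have c0 : 0 < C k 0 := (mul_pos_iff_of_pos_left hb2).1 (by linarith [q0.1])
    have c1 : 0 < C k 1 := (mul_pos_iff_of_pos_left hb2).1 (by linarith [q1.1])
    have : 0 < C k t ∧ 0 < C k (t + 1) := by
      induction t with
      | zero => exact ⟨c0, c1⟩
      | succ t ih =>
        refine ⟨ih.2, ?_⟩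
        by_contra hcon
        push Not at hcon
        have h1 := hk.logc t
        have h2 : C k t * C k (t + 2) ≤ 0 := mul_nonpos_of_nonneg_of_nonpos ih.1.le hcon
        have h3 := pow_pos ih.2 2
        linarith
    exact this.1
  have hall : ∀ᶠ k in atTop, (Hk (C k) ∧ ∀ t, 0 < C k t) ∧ ∀ t : ℕ, 1 ≤ t →
      (t : ℝ) ≤ β k ^ (κ₁ / (4 * p)) → (t : ℝ) * effMass (C k) t < 6 * Real.log Q + 1 := by
    filter_upwards [hgood, hrel, hβ.eventually_ge_atTop 1] with k h1 h2 h3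
    exact ⟨h1, fun t ht htT => weak_eff hD hQ1 hK (by linarith)
      (Real.one_le_rpow h3 (by positivity)) h2 h1.1 h1.2 ht htT⟩
  obtain ⟨k₀, hk₀'⟩ := eventually_atTop.1 hall
  have hk₀ := fun k hk => (hk₀' k hk).1
  have hsm := fun k hk => (hk₀' k hk).2
  have hmass : ∀ k, ∃ m : ℝ, k₀ ≤ k → 0 ≤ m ∧ IsMass (C k) m ∧ ∀ t, m ≤ inc (Vc (C k)) t := by
    intro k
    by_cases h : k₀ ≤ k
    · obtain ⟨hk, hp⟩ := hk₀ k h
      obtain ⟨m, m0, m1, m2⟩ := mass_ex (cv_C hk hp)
      refine ⟨m, fun _ => ⟨m0, ?_, m2⟩⟩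
      have h1 : Tendsto (fun t : ℕ => Real.log (C k 0) * ((t : ℝ))⁻¹) atTop
          (𝓝 (Real.log (C k 0) * 0)) :=
        (tendsto_inv_atTop_zero.comp tendsto_natCast_atTop_atTop).const_mul _
      have h2 := m1.sub h1
      rw [mul_zero, sub_zero] at h2
      refine h2.congr fun t => ?_
      unfold Vc
      ring
    · exact ⟨0, fun h' => absurd h' h⟩
  choose m hm using hmass
  simp only [hCk]
  have hscale : ∀ c : ℝ, 6 * Real.log Q + 1 ≤ c → ∀ k r, k₀ ≤ k → IsScale (C k) c r →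
      β k ^ (κ₁ / (4 * p)) < r := by
    intro c hc k r hk hr
    by_contra hcon
    push Not at hcon
    have h1 := hsm k hk r hr.1.1 hcon
    have h2 := hr.1.2
    linarith
  refine ⟨k₀, m, fun k hk => ⟨(hm k hk).1, (hm k hk).2.1,
    fun t => ⟨(hk₀ k hk).2 t, ?_, ?_⟩, hsm k hk⟩,
    fun c hc => ⟨fun k hk hno => ?_, fun k r hk hr => ⟨hscale c hc k r hk hr, ?_⟩,
      fun κ r hκ hr => ?_⟩⟩
  · have e : effMass (C k) t = inc (Vc (C k)) t := eff_eq (hk₀ k hk).2 t
    rw [e]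
    exact (hm k hk).2.2 t
  · have e : ∀ t, effMass (C k) t = inc (Vc (C k)) t := eff_eq (hk₀ k hk).2
    rw [e, e]
    exact (cv_C (hk₀ k hk).1 (hk₀ k hk).2).anti (Nat.le_succ t)
  all_goals
    have hc0 : 0 < c := lt_of_lt_of_le (by positivity) hc
  · -- no scale
    obtain ⟨hH, hp⟩ := hk₀ k hk
    have hlt : ∀ R : ℕ, 1 ≤ R → (R : ℝ) * inc (Vc (C k)) R < c := by
      by_contra hcon
      push Not at hcon
      have hne : ∃ R : ℕ, 1 ≤ R ∧ c ≤ R * effMass (C k) R := by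
        obtain ⟨R, h1, h2⟩ := hcon
        refine ⟨R, h1, ?_⟩
        have e : effMass (C k) R = inc (Vc (C k)) R := eff_eq hp R
        rw [e]
        exact h2
      classical
      exact hno (Nat.find hne) ⟨Nat.find_spec hne, fun R hR => Nat.find_min' hne hR⟩
    refine ⟨le_antisymm ?_ (hm k hk).1, fun t t' ht htt => ?_⟩
    · have h1 : Tendsto (fun R : ℕ => c * ((R : ℝ))⁻¹) atTop (𝓝 (c * 0)) :=
        (tendsto_inv_atTop_nhds_zero_nat (𝕜 := ℝ)).const_mul c
      rw [mul_zero] at h1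
      refine ge_of_tendsto h1 ?_
      filter_upwards [eventually_ge_atTop 1] with R hR
      have hR1 : (1 : ℝ) ≤ R := by exact_mod_cast hR
      have h2 := hlt R hR
      have h3 := mul_le_mul_of_nonneg_left ((hm k hk).2.2 R) (by linarith : (0 : ℝ) ≤ R)
      rw [← div_eq_mul_inv, le_div_iff₀ (by linarith)]
      linarith
    · have h1 := pow_low hc0.le ht htt fun R hR _ => hlt R (by omega)
      have ht1 : (0 : ℝ) < (t : ℝ) - 1 := by
        have : (2 : ℝ) ≤ t := by exact_mod_cast ht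
        linarith
      have ht2 : (0 : ℝ) < (t' : ℝ) - 1 := by
        have : (2 : ℝ) ≤ t' := by exact_mod_cast ht.trans htt
        linarith
      rw [← le_div_iff₀ (hp t), exp_V hp, Real.rpow_def_of_pos (div_pos ht1 ht2),
        Real.log_div ht1.ne' ht2.ne']
      refine Real.exp_le_exp.2 ?_
      linarith
  · -- the scale
    obtain ⟨hH, hp⟩ := hk₀ k hk
    rcases Nat.lt_or_ge r 2 with h2 | h2
    · have h3 : r = 1 := by have := hr.1.1; omega
      rw [h3]
      simp [hc0.le]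
    · have h3 : ((r - 1 : ℕ) : ℝ) * effMass (C k) (r - 1) < c := by
        by_contra hcon
        push Not at hcon
        have := hr.2 ⟨by omega, hcon⟩
        omega
      have e : effMass (C k) (r - 1) = inc (Vc (C k)) (r - 1) := eff_eq hp (r - 1)
      have e2 : ((r - 1 : ℕ) : ℝ) = (r : ℝ) - 1 := by
        rw [Nat.cast_sub (by omega)]; simp
      rw [e, e2] at h3
      have h4 : (0 : ℝ) ≤ (r : ℝ) - 1 := by
        have : (2 : ℝ) ≤ r := by exact_mod_cast h2
        linarith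
      have h5 := mul_le_mul_of_nonneg_right ((hm k hk).2.2 (r - 1)) h4
      linarith
  · -- the continuum limits
    have hge : ∀ q, k₀ ≤ κ (q + k₀) := fun q => by
      have := hκ.id_le (q + k₀)
      simp only [id] at this
      omega
    have hrt : Tendsto (fun q => r (q + k₀)) atTop atTop := by
      have h1 : Tendsto (fun q => β (κ (q + k₀)) ^ (κ₁ / (4 * p))) atTop atTop :=
        ((tendsto_rpow_atTop (by positivity)).comp hβ).comp
          (hκ.tendsto_atTop.comp (tendsto_add_atTop_nat k₀))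
      have h2 : Tendsto (fun q => (r (q + k₀) : ℝ)) atTop atTop :=
        tendsto_atTop_mono (fun q => (hscale c hc _ _ (hge q) (hr _)).le) h1
      exact tendsto_natCast_atTop_iff.1 h2
    obtain ⟨φ, hφ, s, σ, g1, g2, g3, g4, g5, g6, g7, g8, g9, g10⟩ := limit hc0
      (C := fun q => C (κ (q + k₀))) (fun q => (hk₀ _ (hge q)).1) (fun q => (hk₀ _ (hge q)).2)
      (r := fun q => r (q + k₀)) hrt
      (fun q => by
        have h := hr (q + k₀)
        refine ⟨h.1.1, h.1.2, fun R hR hRr => ?_⟩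
        by_contra hcon
        push Not at hcon
        exact absurd (h.2 ⟨hR, hcon⟩) (not_le.2 hRr))
      (m := fun q => m (κ (q + k₀))) (fun q => (hm _ (hge q)).1)
      (fun q t => (hm _ (hge q)).2.2 t)
    have hhalf : Integrable (fun E : ℝ => E) σ → ∫ E, E ∂σ = c →
        (∀ x : ℝ, 0 < x → Integrable (fun E : ℝ => Real.exp (-(E * (x - 1)))) σ) →
        (2 : ℝ) ^ (2 * d) < laplace σ (1 / 2) := fun a1 a2 a3 => by
      have b1 := laplace_low a1 a2 a3 (by norm_num : (0 : ℝ) < 1 / 2)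
      have b2 := two_pow_lt (c := c) hd (by rw [← hQ]; exact hc)
      have b3 : c * (1 - 1 / 2) = c * (1 / 2) := by ring
      rw [b3] at b1
      exact b2.trans_le b1
    exact ⟨fun q => φ q + k₀, s, σ, fun a b hab => Nat.add_lt_add_right (hφ hab) k₀, g1, g10, g4,
      g2, g3, g5, g6, g7, g8, g9, fun x hx => laplace_low g6 g7 g8 hx, hhalf g6 g7 g8⟩

end

end Pool.Agent.Results.MP_7f377f_mp.GlueballContinuumLimit
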