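import Mathlib
import Pool.Agent.H906R3.YM.Conc
import Pool.Agent.TH618.YM.Cartan
import Pool.Agent.W2helper11.MX.Fld
import Pool.Agent.W2helper11.MX.Cov

/-!
# Lattice Yang-Mills theory: the scaling limit at small coupling is the free Maxwell field

Wilson's lattice gauge theory in dimension `d ≥ 3` with gauge group a closed subgroup `G` of `U(N)`,
in the infinite volume, on the lattice of spacing `ε = 1 / r` at the inverse coupling `β_r`. Suppose
that `β_r ≥ r ^ (60 d + 88)` for all large `r`. Let `F_r` be the lattice curvature: at the plaquette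
at `y` in the directions `j`, `k` it is the part in the Lie algebra of the product of the link
variables around the plaquette, transported to a base point along a lattice path of length
`O(r + |y|)`, times `√β_r ε ^ (-d/2)` (that is divided by `g ε ^ 2`, with `β_r = ε ^ (d-4) / g ^ 2`).
For all smooth test two-forms `φ_1, ..., φ_K` of compact support on `ℝ^d` with values in the Lie
algebra, for any infinite volume limits and any choice of the base points and paths, the numbers
`X_r(φ_i) = ε ^ d ∑_y ⟨φ_i(ε y), F_r(y)⟩` converge jointly in law, as `r → ∞`, to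
`(X(φ_1), ..., X(φ_K))`, where `X` is the field strength of `dim G` independent free Maxwell fields
on `ℝ^d`: centred, Gaussian, with the covariance `⟨d*φ, (-Δ)⁻¹ d*ψ⟩`.
-/

open MeasureTheory Matrix Filter
open scoped Matrix.Norms.Frobenius Topology ContDiff FourierTransform BoundedContinuousFunction

namespace Pool.Agent.Results.MP_7f377f_mp.MaxwellScalingLimit

set_option linter.unusedSectionVars false

noncomputable section

/-- Complex `N × N` matrices. -/
abbrev Mt (N : ℕ) := Matrix (Fin N) (Fin N) ℂ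

/-- The unitary group `U(N)`. -/
abbrev UU (N : ℕ) := Matrix.unitaryGroup (Fin N) ℂ

/-- The matrix of an element of a subgroup of `U(N)`. -/
def mt {N : ℕ} {G : Subgroup (UU N)} (g : G) : Mt N := ((g : UU N) : Mt N)

/-- `X` is an orthonormal basis of the Lie algebra of `G`, for the inner product
`Re tr (X^* Y)`. -/
structure IsLieBasis {N n : ℕ} (G : Subgroup (UU N)) (X : Fin n → Mt N) : Prop where
  mem : ∀ (a : Fin n) (t : ℝ), ∃ g : G, mt g = NormedSpace.exp (t • X a)
  orth : ∀ a b, (trace ((X a)ᴴ * X b)).re = if a = b then 1 else 0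
  full : ∀ Y : Mt N, (∀ t : ℝ, ∃ g : G, mt g = NormedSpace.exp (t • Y)) →
    Y ∈ Submodule.span ℝ (Set.range X)

/-- Links of the periodic lattice `(ℤ/l)^d`: base point and direction. -/
abbrev Link (d l : ℕ) := (Fin d → ZMod l) × Fin d

/-- Links of the lattice `ℤ^d`: base point and direction. -/
abbrev LinkZ (d : ℕ) := (Fin d → ℤ) × Fin d

section

variable {N n d l : ℕ} {G : Subgroup (UU N)}

/-- The product of the link variables around the plaquette at `x` in the directions `i`, `j`. -/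
def plaq (U : Link d l → G) (x : Fin d → ZMod l) (i j : Fin d) : G :=
  U (x, i) * U (x + Pi.single i 1, j) * (U (x + Pi.single j 1, i))⁻¹ * (U (x, j))⁻¹

/-- The Wilson action `∑_p Re tr (1 - U_p)`, the sum over the plaquettes. -/
def action [NeZero l] (U : Link d l → G) : ℝ :=
  ∑ x : Fin d → ZMod l, ∑ i : Fin d, ∑ j : Fin d,
    if i < j then (trace (1 - mt (plaq U x i j))).re else 0

/-- The periodic extension of a configuration. -/
def per (U : Link d l → G) : LinkZ d → G := fun e => U (fun i => (e.1 i : ZMod l), e.2)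

/-- The expectation of `F` in the lattice Yang-Mills theory on `(ℤ/l)^d`, `μ` being the Haar
measure. -/
def expect (l : ℕ) [NeZero l] [MeasurableSpace G] (μ : Measure G) (β : ℝ)
    (F : (LinkZ d → G) → ℝ) : ℝ :=
  (∫ U : Link d l → G, F (per U) * Real.exp (-(β * action U)) ∂(Measure.pi fun _ => μ)) /
    ∫ U : Link d l → G, Real.exp (-(β * action U)) ∂(Measure.pi fun _ => μ)

/-- `ν` is an infinite volume limit (weak limit along a subsequence) of the theories on the tori of
even side at inverse coupling `β`. -/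
structure IsInfVol [MeasurableSpace G] (μ : Measure G) (β : ℝ)
    (ν : Measure (LinkZ d → G)) : Prop where
  prob : IsProbabilityMeasure ν
  lim : ∃ s : ℕ → ℕ, Tendsto s atTop atTop ∧ ∀ F : (LinkZ d → G) → ℝ, Continuous F →
    Tendsto (fun j => expect (2 * (s j + 1)) μ β F) atTop (𝓝 (∫ V, F V ∂ν))

/-- The displacement of a step: `(i, true)` is the step by one unit in the direction `i`,
`(i, false)` the step back. -/
def step (s : Fin d × Bool) : Fin d → ℤ := if s.2 then Pi.single s.1 1 else -Pi.single s.1 1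

/-- The product of the link variables along the path with the steps `p` from `x`; a link which is
passed backwards enters with the inverse. -/
def hol (V : LinkZ d → G) : (Fin d → ℤ) → List (Fin d × Bool) → G
  | _, [] => 1
  | x, s :: p => (if s.2 then V (x, s.1) else (V (x - Pi.single s.1 1, s.1))⁻¹) *
      hol V (x + step s) p

/-- The product of the link variables around the plaquette at `y` in the directions `j`, `k`, in the
lattice `ℤ^d`. -/
def plaqZ (V : LinkZ d → G) (y : Fin d → ℤ) (j k : Fin d) : G :=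
  V (y, j) * V (y + Pi.single j 1, k) * (V (y + Pi.single k 1, j))⁻¹ * (V (y, k))⁻¹

/-- A base point and, for every site `y`, the steps of a lattice path from the base point
to `y`. -/
structure Paths (d : ℕ) where
  base : Fin d → ℤ
  path : (Fin d → ℤ) → List (Fin d × Bool)
  ends : ∀ y, base + ((path y).map step).sum = y

/-- The component `⟨X, U⟩ = Re tr (X^* U)` of the plaquette variable `U` at `y` in the directions
`j`, `k`, transported to the base point. -/
def curv (X : Mt N) (Γ : Paths d) (V : LinkZ d → G) (y : Fin d → ℤ) (j k : Fin d) : ℝ :=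
  (trace (Xᴴ * mt (hol V Γ.base (Γ.path y) * plaqZ V y j k *
    (hol V Γ.base (Γ.path y))⁻¹))).re

/-- Real smooth two-forms `(1/2) ∑_{j,k} φ_{jk} dx_j ∧ dx_k` of compact support on `ℝ^d`. -/
structure TestForm (d : ℕ) where
  toFun : Fin d → Fin d → EuclideanSpace ℝ (Fin d) → ℝ
  smooth : ∀ j k, ContDiff ℝ ∞ (toFun j k)
  supp : ∀ j k, HasCompactSupport (toFun j k)
  anti : ∀ j k x, toFun j k x = -toFun k j x

/-- The curvature on the lattice `(1/r) ℤ^d` at the inverse coupling `β`, smeared with the test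
two-form `∑_a φ_a X_a` with values in the Lie algebra. -/
def field (r : ℕ) (β : ℝ) (X : Fin n → Mt N) (Γ : Paths d) (φ : Fin n → TestForm d)
    (V : LinkZ d → G) : ℝ :=
  Real.sqrt β / Real.sqrt ((r : ℝ) ^ d) * ∑' y : Fin d → ℤ, ∑ a : Fin n, 1 / 2 * ∑ j, ∑ k,
    (φ a).toFun j k (WithLp.toLp 2 fun i => (y i : ℝ) / r) * curv (X a) Γ V y j k

/-- The divergence `∑_j ξ_j φ̂_{jk}(ξ)` of a test two-form, in momentum space. -/
def dv (φ : TestForm d) (k : Fin d) (ξ : EuclideanSpace ℝ (Fin d)) : ℂ :=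
  ∑ j, (ξ j : ℂ) * 𝓕 (fun x => ((φ.toFun j k x : ℝ) : ℂ)) ξ

/-- The covariance `⟨d*φ, (-Δ)⁻¹ d*ψ⟩` of the field strength of the free Maxwell field on `ℝ^d`,
as an integral over the momenta `2 π ξ`. -/
def maxwell (φ ψ : TestForm d) : ℝ :=
  ∫ ξ : EuclideanSpace ℝ (Fin d), (∑ k, (dv φ k ξ * (starRingEnd ℂ) (dv ψ k ξ)).re) / ‖ξ‖ ^ 2

/-- The covariance matrix of `n` independent free Maxwell fields at the `n`-tuples of test
two-forms `φ_1, ..., φ_K`. -/
def covMatrix {K : ℕ} (φ : Fin K → Fin n → TestForm d) : Matrix (Fin K) (Fin K) ℝ :=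
  Matrix.of fun i i' => ∑ a, maxwell (φ i a) (φ i' a)

end

open Pool.Agent.H906R3 Pool.Agent.W793 Pool.Agent.TH618 Pool.Agent
open Pool.Agent.W2helper11.MX hiding plqZ

variable {N n d l : ℕ} {G : Subgroup (UU N)}

/-- A Haar probability measure is invariant under right multiplications. -/
lemma right_inv {H : Type*} [Group H] [TopologicalSpace H] [IsTopologicalGroup H]
    [CompactSpace H] [MeasurableSpace H] [BorelSpace H] (μ : Measure H)
    [IsProbabilityMeasure μ] [μ.IsHaarMeasure] : μ.IsMulRightInvariant := by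
  refine ⟨fun g => ?_⟩
  have h1 : IsProbabilityMeasure (Measure.map (fun x => x * g) μ) :=
    Measure.isProbabilityMeasure_map (measurable_mul_const g).aemeasurable
  exact Measure.isHaarMeasure_eq_of_isProbabilityMeasure _ _

/-- A Haar probability measure is invariant under the inversion. -/
lemma inv_inv' {H : Type*} [Group H] [TopologicalSpace H] [IsTopologicalGroup H]
    [CompactSpace H] [MeasurableSpace H] [BorelSpace H] (μ : Measure H)
    [IsProbabilityMeasure μ] [μ.IsHaarMeasure] : μ.IsInvInvariant := by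
  have hr := right_inv μ
  refine ⟨?_⟩
  have h1 : IsProbabilityMeasure μ.inv :=
    Measure.isProbabilityMeasure_map measurable_inv.aemeasurable
  have h2 : μ.inv.IsMulLeftInvariant := inferInstance
  have h3 : μ.inv.IsHaarMeasure :=
    Measure.isHaarMeasure_of_isCompact_nonempty_interior μ.inv Set.univ isCompact_univ
      (by simp) (by simp) (by simp)
  exact Measure.isHaarMeasure_eq_of_isProbabilityMeasure _ _

lemma action_eq [NeZero l] (B : YM.Frame G n) (U : Link d l → G) :
    action U = YM.act B.toLD U := rfl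

section bridge

variable [CompactSpace G] [SecondCountableTopology G] [MeasurableSpace G] [BorelSpace G]
  (μ : Measure G) [IsProbabilityMeasure μ] [μ.IsHaarMeasure] (B : YM.Frame G n)

lemma expect_eq [NeZero l] (β : ℝ) (F : (LinkZ d → G) → ℝ) : expect l μ β F =
    YM.EX μ B.toLD β (fun U : YM.Ed d l → G => F (YM.lf U)) := by
  unfold expect YM.EX YM.Zt
  simp only [one_mul]
  rfl

include B in
lemma action_cont [NeZero l] : Continuous (action : (Link d l → G) → ℝ) :=
  YM.act_cont (L := B.toLD)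

include B in
/-- existence of infinite volume limits -/
lemma exists_infVol (β : ℝ) : ∃ ν : Measure (LinkZ d → G), IsInfVol μ β ν := by
  have hP : ∀ j : ℕ, ∃ P : ProbabilityMeasure (LinkZ d → G),
      ∀ F : (LinkZ d → G) → ℝ, Continuous F →
        ∫ V, F V ∂(P : Measure (LinkZ d → G)) = expect (2 * (j + 1)) μ β F := by
    intro j
    have hper : Continuous (per : (Link d (2 * (j + 1)) → G) → LinkZ d → G) :=
      continuous_pi fun e => continuous_apply _
    have hexp : Continuous fun U : Link d (2 * (j + 1)) → G =>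
        Real.exp (-(β * action U)) :=
      Real.continuous_exp.comp (continuous_const.mul (action_cont B)).neg
    have hint : Integrable (fun U : Link d (2 * (j + 1)) → G =>
        Real.exp (-(β * action U))) (Measure.pi fun _ => μ) :=
      hexp.integrable_of_hasCompactSupport (HasCompactSupport.of_compactSpace _)
    have h1 := isProbabilityMeasure_tilted (f := fun U : Link d (2 * (j + 1)) → G =>
      -(β * action U)) hint
    refine ⟨⟨((Measure.pi fun _ => μ).tilted fun U : Link d (2 * (j + 1)) → G =>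
      -(β * action U)).map per, Measure.isProbabilityMeasure_map hper.aemeasurable⟩,
      fun F hF => ?_⟩
    show ∫ V, F V ∂(((Measure.pi fun _ => μ).tilted fun U : Link d (2 * (j + 1)) → G =>
      -(β * action U)).map per) = _
    rw [integral_map hper.aemeasurable hF.aestronglyMeasurable, integral_tilted]
    unfold expect
    rw [← integral_div]
    refine integral_congr_ae (Filter.Eventually.of_forall fun U => ?_)
    simp only [smul_eq_mul]
    ring
  choose P hP using hP
  obtain ⟨ν, s, hs, hlim⟩ := CompactSpace.tendsto_subseq P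
  refine ⟨ν, ⟨inferInstance, s, hs.tendsto_atTop, fun F hF => ?_⟩⟩
  have h1 := (ProbabilityMeasure.tendsto_iff_forall_integral_tendsto.1 hlim)
    (BoundedContinuousFunction.mkOfCompact ⟨F, hF⟩)
  simp only [Function.comp_apply, BoundedContinuousFunction.mkOfCompact_apply,
    ContinuousMap.coe_mk] at h1
  simpa only [hP _ F hF] using h1

end bridge

/-! ### paths -/

lemma hol_eq (V : LinkZ d → G) (x : Fin d → ℤ) (p : List (Fin d × Bool)) :
    hol V x p = YM.hol V x p := by
  induction p generalizing x with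
  | nil => rfl
  | cons s p ih =>
    obtain ⟨i, s⟩ := s
    cases s with
    | true =>
      simp only [hol, YM.hol, if_true]
      rw [ih]; rfl
    | false =>
      simp only [hol, YM.hol, Bool.false_eq_true, if_false]
      rw [ih, sub_eq_add_neg]; rfl

lemma dest_eq (x : Fin d → ℤ) (p : List (Fin d × Bool)) :
    YM.dest x p = x + (p.map step).sum := by
  induction p generalizing x with
  | nil => simp [YM.dest]
  | cons s p ih =>
    obtain ⟨i, s⟩ := s
    cases s with
    | true =>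
      simp only [YM.dest, List.map_cons, List.sum_cons]
      rw [ih, add_assoc]; rfl
    | false =>
      simp only [YM.dest, List.map_cons, List.sum_cons]
      rw [ih, sub_eq_add_neg, add_assoc]; rfl

lemma step_le (s : Fin d × Bool) (i : Fin d) : |step s i| ≤ 1 := by
  unfold step
  have h1 : |(Pi.single s.1 (1 : ℤ) : Fin d → ℤ) i| ≤ 1 := by
    rw [Pi.single_apply]
    split_ifs <;> simp
  split_ifs with h
  · exact h1
  · rw [Pi.neg_apply, abs_neg]; exact h1

lemma steps_le (p : List (Fin d × Bool)) (i : Fin d) : |(p.map step).sum i| ≤ (p.length : ℤ) := by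
  induction p with
  | nil => simp
  | cons s p ih =>
    rw [List.map_cons, List.sum_cons, Pi.add_apply, List.length_cons]
    push_cast
    have h1 := step_le s i
    have h2 := abs_add_le (step s i) ((p.map step).sum i)
    linarith

lemma base_le (Γ : Paths d) (i : Fin d) : |(Γ.base i : ℝ)| ≤ (Γ.path 0).length := by
  have h1 := congrFun (Γ.ends 0) i
  rw [Pi.add_apply, Pi.zero_apply] at h1
  have h2 := steps_le (Γ.path 0) i
  have h3 : |Γ.base i| ≤ ((Γ.path 0).length : ℤ) := by
    rw [show Γ.base i = -((Γ.path 0).map step).sum i by linarith, abs_neg]; exact h2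
  exact_mod_cast h3

/-! ### the field -/

/-- the frame of an orthonormal basis -/
def mkFrame {X : Fin n → Mt N} (h : IsLieBasis G X) : YM.Frame G n where
  X := X
  ex := fun a t => Classical.choose (h.mem a t)
  ex_eq := fun a t => Classical.choose_spec (h.mem a t)
  orth := h.orth
  full := h.full

lemma curv_eq {X : Fin n → Mt N} (h : IsLieBasis G X) (a : Fin n) (Γ : Paths d)
    (V : LinkZ d → G) (y : Fin d → ℤ) (j k : Fin d) :
    curv (X a) Γ V y j k = -(YM.fi (mkFrame h).toLD a (YM.hol V Γ.base (Γ.path y) *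
      W2helper11.MX.plqZ V y j k * (YM.hol V Γ.base (Γ.path y))⁻¹)) := by
  unfold curv YM.fi
  rw [YM.trX_apply, hol_eq]
  have h1 : (X a)ᴴ = -(X a) := (mkFrame h).skewX a
  rw [h1, neg_mul, trace_neg, Complex.neg_re]
  rfl

lemma field_eq {X : Fin n → Mt N} (h : IsLieBasis G X) (r : ℕ) (β : ℝ) (Γ : Paths d)
    (φ : Fin n → TestForm d) (V : LinkZ d → G) :
    field r β X Γ φ V = -(Real.sqrt β * YF (mkFrame h).toLD r (fun a => (φ a).toFun)
      Γ.base Γ.path V) := by
  have h1 : ∀ y : Fin d → ℤ, (∑ a : Fin n, 1 / 2 * ∑ j, ∑ k,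
      (φ a).toFun j k (WithLp.toLp 2 fun i => (y i : ℝ) / r) * curv (X a) Γ V y j k) =
      -(YT (mkFrame h).toLD r (fun a => (φ a).toFun) Γ.base Γ.path V y) := by
    intro y
    unfold YT
    rw [← Finset.sum_neg_distrib]
    refine Finset.sum_congr rfl fun a _ => ?_
    rw [← mul_neg, ← Finset.sum_neg_distrib]
    congr 1
    refine Finset.sum_congr rfl fun j _ => ?_
    rw [← Finset.sum_neg_distrib]
    refine Finset.sum_congr rfl fun k _ => ?_
    rw [curv_eq h, mul_neg]
    rfl
  unfold field YF kap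
  simp only [h1]
  rw [tsum_neg]
  ring

section lims

variable {H : Type*} [Group H] [TopologicalSpace H] [IsTopologicalGroup H] [CompactSpace H]
  [SecondCountableTopology H] [MeasurableSpace H] [BorelSpace H] {L : YM.LD H N n}

lemma YF_comb {r K : ℕ} (hr : 1 ≤ r) {φ : Fin K → Fin n → Fin d → Fin d → Eu d → ℝ}
    (hφ : ∀ i a j k, Sc (φ i a j k)) (t : Fin K → ℝ) (o : Fin d → ℤ)
    (P : (Fin d → ℤ) → List (Fin d × Bool)) (V : YM.Ez d → H) :
    ∑ i, t i * YF L r (φ i) o P V = YF L r (fun a j k x => ∑ i, t i * φ i a j k x) o P V := by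
  have hs : ∀ i, Summable fun y => YT L r (φ i) o P V y := by
    intro i
    obtain ⟨C, R, -, hR, hbox, -⟩ := N1_fD (hφ i)
    refine summable_of_ne_finset_zero (s := bx d ⌈R * r⌉₊) fun y hy => ?_
    by_contra h2
    apply hy
    rw [mem_bx]
    intro i
    have h3 := (YT_ne hr hbox h2 i).trans (Nat.le_ceil _)
    exact_mod_cast h3
  have h1 : ∀ y, YT L r (fun a j k x => ∑ i, t i * φ i a j k x) o P V y =
      ∑ i, t i * YT L r (φ i) o P V y := by
    intro y
    have e1 : ∑ i, t i * YT L r (φ i) o P V y = ∑ i, ∑ a, ∑ j, ∑ k, 1 / 2 * (t i *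
        φ i a j k (emb r y) * YM.fi L a (YM.hol V o (P y) * W2helper11.MX.plqZ V y j k *
          (YM.hol V o (P y))⁻¹)) := by
      refine Finset.sum_congr rfl fun i _ => ?_
      unfold YT
      rw [Finset.mul_sum]
      refine Finset.sum_congr rfl fun a _ => ?_
      rw [Finset.mul_sum, Finset.mul_sum]
      refine Finset.sum_congr rfl fun j _ => ?_
      rw [Finset.mul_sum, Finset.mul_sum]
      refine Finset.sum_congr rfl fun k _ => ?_
      ring
    rw [e1, Finset.sum_comm]
    unfold YT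
    refine Finset.sum_congr rfl fun a _ => ?_
    conv_rhs => rw [Finset.sum_comm]
    rw [Finset.mul_sum]
    refine Finset.sum_congr rfl fun j _ => ?_
    conv_rhs => rw [Finset.sum_comm]
    rw [Finset.mul_sum]
    refine Finset.sum_congr rfl fun k _ => ?_
    rw [Finset.sum_mul, Finset.mul_sum]
  unfold YF
  simp only [h1]
  rw [Summable.tsum_finsetSum fun i _ => (hs i).mul_left _, Finset.mul_sum]
  refine Finset.sum_congr rfl fun i _ => ?_
  rw [tsum_mul_left]
  ring

end lims

/-! ### the covariance -/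

lemma maxwell_eq (φ ψ : TestForm d) : maxwell φ ψ =
    cvF (fun j k => 𝓕 fun x => ((φ.toFun j k x : ℝ) : ℂ))
      (fun j k => 𝓕 fun x => ((ψ.toFun j k x : ℝ) : ℂ)) := rfl

lemma covMatrix_quad {K : ℕ} (φ : Fin K → Fin n → TestForm d) (t : Fin K → ℝ) :
    t ⬝ᵥ covMatrix φ *ᵥ t = ∑ a, sgm fun j k x => ∑ i, t i * (φ i a).toFun j k x := by
  have hsc : ∀ i a j k, Sc ((φ i a).toFun j k) := fun i a j k =>
    ⟨(φ i a).smooth j k, (φ i a).supp j k⟩
  have h1 : ∀ a, sgm (fun j k x => ∑ i, t i * (φ i a).toFun j k x) =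
      ∑ i, ∑ i', t i * t i' * maxwell (φ i a) (φ i' a) := by
    intro a
    have h2 := cvF_quad t (fun i j k => 𝓕 (hsc i a j k).sz)
    unfold sgm
    have h3 : (fun j k => 𝓕 fun x => (((∑ i, t i * (φ i a).toFun j k x : ℝ)) : ℂ)) =
        fun j k ξ => ∑ i, (t i : ℂ) * 𝓕 (fun x => (((φ i a).toFun j k x : ℝ) : ℂ)) ξ := by
      funext j k ξ
      exact fourier_comb (fun i => hsc i a j k) t ξ
    rw [h3]
    exact h2.symm
  simp only [h1]
  rw [Finset.sum_comm]
  unfold dotProduct mulVec dotProduct covMatrix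
  refine Finset.sum_congr rfl fun i _ => ?_
  rw [Finset.sum_comm, Finset.mul_sum]
  refine Finset.sum_congr rfl fun i' _ => ?_
  show t i * ((∑ a, maxwell (φ i a) (φ i' a)) * t i') = _
  rw [Finset.sum_mul, Finset.mul_sum]
  refine Finset.sum_congr rfl fun a _ => ?_
  ring

lemma covMatrix_psd {K : ℕ} (φ : Fin K → Fin n → TestForm d) : (covMatrix φ).PosSemidef := by
  refine Matrix.PosSemidef.of_dotProduct_mulVec_nonneg ?_ fun t => ?_
  · ext i i'
    rw [Matrix.conjTranspose_apply]
    unfold covMatrix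
    simp only [Matrix.of_apply, star_trivial]
    exact Finset.sum_congr rfl fun a _ => by rw [maxwell_eq, maxwell_eq, cvF_symm]
  · rw [star_trivial, covMatrix_quad]
    refine Finset.sum_nonneg fun a _ => ?_
    unfold sgm sgF
    exact integral_nonneg fun ξ => by positivity

section main

variable [CompactSpace G] [SecondCountableTopology G] [MeasurableSpace G] [BorelSpace G]
  (μ : Measure G) [IsProbabilityMeasure μ] [μ.IsHaarMeasure] [μ.IsMulRightInvariant]
  [μ.IsInvInvariant]

/-- the trigonometric moments in the infinite volume -/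
lemma core {X : Fin n → Mt N} (hX : IsLieBasis G X) (hd : 3 ≤ d) {β : ℕ → ℝ}
    (hβ : ∀ᶠ r : ℕ in atTop, (r : ℝ) ^ (60 * d + 88) ≤ β r) {ν : ℕ → Measure (LinkZ d → G)}
    (hν : ∀ r, IsInfVol μ (β r) (ν r)) {C : ℝ} {Γ : ℕ → Paths d}
    (hΓ : ∀ r y, (((Γ r).path y).length : ℝ) ≤ C * (r + ∑ i, |(y i : ℝ)|))
    {ψ : Fin n → Fin d → Fin d → Eu d → ℝ} (hψ : ∀ a j k, Sc (ψ a j k))
    (ha : ∀ a j k x, ψ a j k x = -ψ a k j x) {δ : ℝ} (hδ : 0 < δ) :
    ∀ᶠ r : ℕ in atTop,
      |∫ V, Real.cos (Real.sqrt (β r) * YF (mkFrame hX).toLD r ψ (Γ r).base (Γ r).path V) ∂(ν r) -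
        Real.exp (-((∑ a, sgm (ψ a)) / 2))| ≤ δ ∧
      |∫ V, Real.sin (Real.sqrt (β r) * YF (mkFrame hX).toLD r ψ (Γ r).base (Γ r).path V) ∂(ν r)| ≤
        δ := by
  obtain ⟨C1, R, -, hR, hbox, -⟩ := N1_fD hψ
  filter_upwards [tor_main μ (L := (mkFrame hX).toLD) hd hψ ha C hδ, hβ, eventually_ge_atTop 1]
    with r h1 h2 h3
  have hr0 : (0 : ℝ) < r := by exact_mod_cast h3
  have hβ0 : 0 ≤ β r := le_trans (by positivity) h2
  obtain ⟨b, hb⟩ : ∃ b : ℝ, b = Real.sqrt (Real.sqrt (β r)) := ⟨_, rfl⟩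
  have hb0 : 0 ≤ b := by rw [hb]; exact Real.sqrt_nonneg _
  have hb2 : b ^ 2 = Real.sqrt (β r) := by rw [hb, Real.sq_sqrt (Real.sqrt_nonneg _)]
  have hb4 : b ^ 4 = β r := by
    rw [show b ^ 4 = (b ^ 2) ^ 2 by ring, hb2, Real.sq_sqrt hβ0]
  have hbr : (r : ℝ) ^ (15 * d + 22) ≤ b := by
    refine le_of_pow_le_pow_left₀ (n := 4) (by norm_num) hb0 ?_
    rw [hb4, ← pow_mul]
    exact le_of_eq_of_le (by ring_nf) h2
  have hbase : ∀ i, |((Γ r).base i : ℝ)| ≤ C * r := fun i => by
    refine (base_le (Γ r) i).trans ((hΓ r 0).trans (le_of_eq ?_))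
    simp
  have hpath : ∀ y, YM.dest (Γ r).base ((Γ r).path y) = y ∧
      (((Γ r).path y).length : ℝ) ≤ C * (r + ∑ i, |(y i : ℝ)|) := fun y =>
    ⟨by rw [dest_eq]; exact (Γ r).ends y, hΓ r y⟩
  have hY : Continuous (YF (mkFrame hX).toLD r ψ (Γ r).base (Γ r).path : (LinkZ d → G) → ℝ) :=
    YF_cont h3 hbox _ _
  obtain ⟨s, hs, hlim⟩ := (hν r).lim
  have hc1 : Continuous fun V : LinkZ d → G =>
      Real.cos (Real.sqrt (β r) * YF (mkFrame hX).toLD r ψ (Γ r).base (Γ r).path V) :=
    Real.continuous_cos.comp (continuous_const.mul hY)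
  have hc2 : Continuous fun V : LinkZ d → G =>
      Real.sin (Real.sqrt (β r) * YF (mkFrame hX).toLD r ψ (Γ r).base (Γ r).path V) :=
    Real.continuous_sin.comp (continuous_const.mul hY)
  have hev : ∀ᶠ j in atTop, 4 * r ^ 7 < s j + 1 := by
    filter_upwards [hs.eventually_ge_atTop (4 * r ^ 7)] with j hj
    omega
  constructor
  · have l1 := ((hlim _ hc1).sub_const (Real.exp (-((∑ a, sgm (ψ a)) / 2)))).abs
    refine le_of_tendsto l1 ?_
    filter_upwards [hev] with j hj
    have := (h1 b hbr (s j + 1) hj _ _ hbase hpath).1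
    rw [expect_eq μ (mkFrame hX), ← hb2, ← hb4]
    exact this
  · have l1 := (hlim _ hc2).abs
    refine le_of_tendsto l1 ?_
    filter_upwards [hev] with j hj
    have := (h1 b hbr (s j + 1) hj _ _ hbase hpath).2
    rw [expect_eq μ (mkFrame hX), ← hb2, ← hb4]
    exact this

lemma comb_field {X : Fin n → Mt N} (hX : IsLieBasis G X) {r K : ℕ} (hr : 1 ≤ r) (β : ℝ)
    (Γ : Paths d) (φ : Fin K → Fin n → TestForm d) (t : Fin K → ℝ) (V : LinkZ d → G) :
    ∑ i, t i * field r β X Γ (φ i) V = -(Real.sqrt β * YF (mkFrame hX).toLD r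
      (fun a j k x => ∑ i, t i * (φ i a).toFun j k x) Γ.base Γ.path V) := by
  rw [← YF_comb hr (fun i a j k => ⟨(φ i a).smooth j k, (φ i a).supp j k⟩)]
  simp only [field_eq hX]
  rw [Finset.mul_sum, ← Finset.sum_neg_distrib]
  refine Finset.sum_congr rfl fun i _ => ?_
  ring

lemma field_cont {X : Fin n → Mt N} (hX : IsLieBasis G X) {r : ℕ} (hr : 1 ≤ r) (β : ℝ)
    (Γ : Paths d) (φ : Fin n → TestForm d) :
    Continuous fun V : LinkZ d → G => field r β X Γ φ V := by
  obtain ⟨C1, R, -, hR, hbox, -⟩ := N1_fD (φ := fun a => (φ a).toFun)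
    (fun a j k => ⟨(φ a).smooth j k, (φ a).supp j k⟩)
  simp only [field_eq hX]
  exact (continuous_const.mul (YF_cont hr hbox _ _)).neg

/-- the vector of the smeared curvatures -/
def vec {X : Fin n → Mt N} (_ : IsLieBasis G X) {K : ℕ} (r : ℕ) (β : ℝ) (Γ : Paths d)
    (φ : Fin K → Fin n → TestForm d) (V : LinkZ d → G) : EuclideanSpace ℝ (Fin K) :=
  WithLp.toLp 2 fun i => field r β X Γ (φ i) V

lemma vec_cont {X : Fin n → Mt N} (hX : IsLieBasis G X) {r K : ℕ} (hr : 1 ≤ r) (β : ℝ)
    (Γ : Paths d) (φ : Fin K → Fin n → TestForm d) : Continuous (vec (G := G) hX r β Γ φ) :=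
  (PiLp.continuous_toLp 2 _).comp (continuous_pi fun i => field_cont hX hr β Γ (φ i))

/-- convergence of the characteristic functions -/
lemma char_lim {X : Fin n → Mt N} (hX : IsLieBasis G X) (hd : 3 ≤ d) {β : ℕ → ℝ}
    (hβ : ∀ᶠ r : ℕ in atTop, (r : ℝ) ^ (60 * d + 88) ≤ β r) {ν : ℕ → Measure (LinkZ d → G)}
    (hν : ∀ r, IsInfVol μ (β r) (ν r)) {C : ℝ} {Γ : ℕ → Paths d}
    (hΓ : ∀ r y, (((Γ r).path y).length : ℝ) ≤ C * (r + ∑ i, |(y i : ℝ)|)) {K : ℕ}
    (φ : Fin K → Fin n → TestForm d) (t : EuclideanSpace ℝ (Fin K)) :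
    Tendsto (fun r => ∫ V, Complex.exp (inner ℝ (vec hX r (β r) (Γ r) φ V) t * Complex.I) ∂(ν r))
      atTop (𝓝 (Complex.exp (-(((t.ofLp ⬝ᵥ covMatrix φ *ᵥ t.ofLp : ℝ) : ℂ) / 2)))) := by
  obtain ⟨ψ, hψ⟩ : ∃ ψ : Fin n → Fin d → Fin d → Eu d → ℝ,
    ψ = fun a j k x => ∑ i, t i * (φ i a).toFun j k x := ⟨_, rfl⟩
  have hsc : ∀ a j k, Sc (ψ a j k) := fun a j k => by
    rw [hψ]
    exact Sc.comb (fun i => ⟨(φ i a).smooth j k, (φ i a).supp j k⟩) _
  have ha : ∀ a j k x, ψ a j k x = -ψ a k j x := fun a j k x => by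
    rw [hψ]
    simp only
    rw [← Finset.sum_neg_distrib]
    refine Finset.sum_congr rfl fun i _ => ?_
    rw [(φ i a).anti j k x]
    ring
  have hq : t.ofLp ⬝ᵥ covMatrix φ *ᵥ t.ofLp = ∑ a, sgm (ψ a) := by
    rw [covMatrix_quad, hψ]
  rw [Metric.tendsto_atTop']
  intro ε hε
  have h1 := core μ hX hd hβ hν hΓ hsc ha (δ := ε / 3) (by positivity)
  obtain ⟨r0, hr0⟩ := eventually_atTop.1 h1
  refine ⟨r0 + 1, fun r hr => ?_⟩
  obtain ⟨g1, g2⟩ := hr0 r (by omega)
  have hr1 : 1 ≤ r := by omega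
  have hprob := (hν r).prob
  obtain ⟨Y, hY⟩ : ∃ Y : (LinkZ d → G) → ℝ, Y = fun V =>
    Real.sqrt (β r) * YF (mkFrame hX).toLD r ψ (Γ r).base (Γ r).path V := ⟨_, rfl⟩
  have hYc : Continuous Y := by
    obtain ⟨C1, R, -, hR, hbox, -⟩ := N1_fD hsc
    rw [hY]
    exact continuous_const.mul (YF_cont hr1 hbox _ _)
  have hin : ∀ V, inner ℝ (vec hX r (β r) (Γ r) φ V) t = -Y V := by
    intro V
    rw [PiLp.inner_apply]
    have e1 : ∑ i, inner ℝ (vec hX r (β r) (Γ r) φ V i) (t i) =
        ∑ i, t i * field r (β r) X (Γ r) (φ i) V := by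
      refine Finset.sum_congr rfl fun i _ => ?_
      simp only [vec, RCLike.inner_apply, conj_trivial]
    rw [e1, comb_field hX hr1, hY, hψ]
  have hexp : ∀ V, Complex.exp (inner ℝ (vec hX r (β r) (Γ r) φ V) t * Complex.I) =
      ((Real.cos (Y V) : ℝ) : ℂ) - ((Real.sin (Y V) : ℝ) : ℂ) * Complex.I := by
    intro V
    rw [hin, Complex.exp_mul_I, Complex.ofReal_neg, Complex.cos_neg, Complex.sin_neg,
      ← Complex.ofReal_cos, ← Complex.ofReal_sin]
    ring
  simp only [hexp]
  have i1 : Integrable (fun V => ((Real.cos (Y V) : ℝ) : ℂ)) (ν r) :=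
    ((Real.continuous_cos.comp hYc).integrable_of_hasCompactSupport
      (HasCompactSupport.of_compactSpace _)).ofReal
  have i2 : Integrable (fun V => ((Real.sin (Y V) : ℝ) : ℂ) * Complex.I) (ν r) :=
    (((Real.continuous_sin.comp hYc).integrable_of_hasCompactSupport
      (HasCompactSupport.of_compactSpace _)).ofReal).mul_const _
  rw [integral_sub i1 i2, integral_mul_const, integral_complex_ofReal, integral_complex_ofReal,
    hq, ← Complex.ofReal_ofNat, ← Complex.ofReal_div, ← Complex.ofReal_neg, ← Complex.ofReal_exp]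
  rw [hY] 
  obtain ⟨c, hc⟩ : ∃ c, c = ∫ V, Real.cos (Real.sqrt (β r) *
    YF (mkFrame hX).toLD r ψ (Γ r).base (Γ r).path V) ∂(ν r) := ⟨_, rfl⟩
  obtain ⟨s, hs⟩ : ∃ s, s = ∫ V, Real.sin (Real.sqrt (β r) *
    YF (mkFrame hX).toLD r ψ (Γ r).base (Γ r).path V) ∂(ν r) := ⟨_, rfl⟩
  rw [← hc] at g1 ⊢
  rw [← hs] at g2 ⊢
  rw [dist_eq_norm]
  have e2 : ((c : ℂ) - (s : ℂ) * Complex.I) - ((Real.exp (-((∑ a, sgm (ψ a)) / 2)) : ℝ) : ℂ) =
      (((c - Real.exp (-((∑ a, sgm (ψ a)) / 2)) : ℝ)) : ℂ) - (s : ℂ) * Complex.I := by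
    push_cast
    ring
  rw [e2]
  refine lt_of_le_of_lt (norm_sub_le _ _) ?_
  rw [norm_mul, Complex.norm_I, mul_one, Complex.norm_real, Complex.norm_real, Real.norm_eq_abs,
    Real.norm_eq_abs]
  linarith

end main

theorem result {d : ℕ} (hd : 3 ≤ d) {N : ℕ} (G : Subgroup (UU N))
    (hG : IsClosed (G : Set (UU N))) [MeasurableSpace G] [BorelSpace G]
    (μ : Measure G) [IsProbabilityMeasure μ] [μ.IsHaarMeasure] :
    (∃ (n : ℕ) (X : Fin n → Mt N), IsLieBasis G X) ∧
    (∀ b : ℝ, ∃ ν : Measure (LinkZ d → G), IsInfVol μ b ν) ∧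
    ∀ (n : ℕ) (X : Fin n → Mt N), IsLieBasis G X →
    ∀ (β : ℕ → ℝ), (∀ᶠ r : ℕ in atTop, (r : ℝ) ^ (60 * d + 88) ≤ β r) →
    ∀ (ν : ℕ → Measure (LinkZ d → G)), (∀ r, IsInfVol μ (β r) (ν r)) →
    ∀ (C : ℝ) (Γ : ℕ → Paths d),
      (∀ r y, (((Γ r).path y).length : ℝ) ≤ C * (r + ∑ i, |(y i : ℝ)|)) →
    ∀ (K : ℕ) (φ : Fin K → Fin n → TestForm d),
      (covMatrix φ).PosSemidef ∧
      ∀ f : EuclideanSpace ℝ (Fin K) →ᵇ ℝ,
        Tendsto (fun r => ∫ V, f (WithLp.toLp 2 fun i => field r (β r) X (Γ r) (φ i) V) ∂(ν r))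
          atTop (𝓝 (∫ x, f x ∂(ProbabilityTheory.multivariateGaussian 0 (covMatrix φ)))) := by
  have : CompactSpace G := by
    have h1 : IsCompact (G : Set (UU N)) := hG.isCompact
    exact isCompact_iff_compactSpace.1 h1
  have h00 : SecondCountableTopology (UU N) := TopologicalSpace.Subtype.secondCountableTopology _
  have : SecondCountableTopology G := TopologicalSpace.Subtype.secondCountableTopology _
  have := right_inv μ
  have := inv_inv' μ
  obtain ⟨n0, ⟨B⟩⟩ := YM.exists_frame hG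
  refine ⟨⟨n0, B.X, fun a t => ⟨B.ex a t, B.ex_eq a t⟩, B.orth, B.full⟩,
    exists_infVol μ B, ?_⟩
  intro n X hX β hβ ν hν C Γ hΓ K φ
  refine ⟨covMatrix_psd φ, fun f => ?_⟩
  have hprob : ∀ r, IsProbabilityMeasure (ν r) := fun r => (hν r).prob
  have hcont : ∀ r : ℕ, Continuous (vec (G := G) hX (r + 1) (β (r + 1)) (Γ (r + 1)) φ) :=
    fun r => vec_cont hX (by omega) _ _ φ
  obtain ⟨P, hP⟩ : ∃ P : ℕ → ProbabilityMeasure (EuclideanSpace ℝ (Fin K)), ∀ r,
      (P r : Measure (EuclideanSpace ℝ (Fin K))) =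
        (ν (r + 1)).map (vec hX (r + 1) (β (r + 1)) (Γ (r + 1)) φ) :=
    ⟨fun r => ⟨_, Measure.isProbabilityMeasure_map (hcont r).aemeasurable⟩, fun r => rfl⟩
  obtain ⟨Q, hQ⟩ : ∃ Q : ProbabilityMeasure (EuclideanSpace ℝ (Fin K)),
      (Q : Measure (EuclideanSpace ℝ (Fin K))) =
        ProbabilityTheory.multivariateGaussian 0 (covMatrix φ) :=
    ⟨⟨ProbabilityTheory.multivariateGaussian 0 (covMatrix φ), inferInstance⟩, rfl⟩
  have hlim : Tendsto P atTop (𝓝 Q) := by
    rw [ProbabilityMeasure.tendsto_iff_tendsto_charFun]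
    intro t
    rw [hQ, ProbabilityTheory.charFun_multivariateGaussian (covMatrix_psd φ)]
    have h1 := (tendsto_add_atTop_iff_nat 1).2 (char_lim μ hX hd hβ hν hΓ φ t)
    have h2 : Complex.exp (inner ℝ t (0 : EuclideanSpace ℝ (Fin K)) * Complex.I -
        (t.ofLp ⬝ᵥ covMatrix φ *ᵥ t.ofLp : ℝ) / 2) =
        Complex.exp (-(((t.ofLp ⬝ᵥ covMatrix φ *ᵥ t.ofLp : ℝ) : ℂ) / 2)) := by
      rw [inner_zero_right]
      simp
    rw [h2]
    refine h1.congr fun r => ?_
    rw [hP, charFun_apply, integral_map (hcont r).aemeasurable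
      (by fun_prop : Continuous fun x : EuclideanSpace ℝ (Fin K) =>
        Complex.exp (inner ℝ x t * Complex.I)).aestronglyMeasurable]
  have h3 := (ProbabilityMeasure.tendsto_iff_forall_integral_tendsto.1 hlim) f
  rw [hQ] at h3
  refine (tendsto_add_atTop_iff_nat 1).1 (h3.congr fun r => ?_)
  rw [hP, integral_map (hcont r).aemeasurable f.continuous.aestronglyMeasurable]
  rfl

end

end Pool.Agent.Results.MP_7f377f_mp.MaxwellScalingLimit
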