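import Mathlib
import Pool.Agent.H906R3.YM.Conc
import Pool.Agent.W793.YM.Inf
import Pool.Agent.TH618.YM.Cartan
import Pool.Agent.W2helper67.YM.GaussN
import Pool.Agent.W2helper67.YM.Asm

/-!
# Lattice Yang-Mills theory: scaling limits at weak coupling are free Maxwell theories

Wilson's lattice gauge theory in dimension `d ≥ 3` with gauge group a closed subgroup `G` of `U(N)`,
in the infinite volume, on the lattice `(1/s) ℤ^d` at the inverse coupling `β_s`. The local gauge
invariant fields `s^d β_s (⟨W_p(x)⟩ - W_p(x))`, `W_p(x)` the Wilson loop variable of the lattice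
path with the fixed steps `p` from the site next to `x`, have a scaling limit at distinct points if
`β_s ≥ s^A`, `A` depending on `d` and on the number `r` of the points only: the `r` point functions
converge to those of `(1/2) ∑_{a ≤ dim G} :(∮_p F^a(x))^2:`, `F^1, F^2, ...` the curvatures of
independent free Maxwell fields in `ℝ^d`.
-/

open MeasureTheory Matrix Filter
open scoped Matrix.Norms.Frobenius Topology

namespace Pool.Agent.Results.MP_7f377f_mp.WilsonLoopScalingLimit

set_option linter.unusedSectionVars false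
set_option linter.unusedVariables false

noncomputable section

/-- Complex `N × N` matrices. -/
abbrev Mt (N : ℕ) := Matrix (Fin N) (Fin N) ℂ

/-- The unitary group `U(N)`. -/
abbrev UU (N : ℕ) := Matrix.unitaryGroup (Fin N) ℂ

/-- The matrix of an element of a subgroup of `U(N)`. -/
def mt {N : ℕ} {G : Subgroup (UU N)} (g : G) : Mt N := ((g : UU N) : Mt N)

/-- The dimension of `G`: the dimension of the real space spanned by all matrices `Y` with
`exp (t Y) ∈ G` for all real `t`. -/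
def dimG {N : ℕ} (G : Subgroup (UU N)) : ℕ :=
  Module.finrank ℝ (Submodule.span ℝ {Y : Mt N | ∀ t : ℝ, ∃ g : G, mt g = NormedSpace.exp (t • Y)})

/-- Links of the periodic lattice `(ℤ/l)^d`: base point and direction. -/
abbrev Link (d l : ℕ) := (Fin d → ZMod l) × Fin d

/-- Links of the lattice `ℤ^d`: base point and direction. -/
abbrev LinkZ (d : ℕ) := (Fin d → ℤ) × Fin d

section

variable {N d l : ℕ} {G : Subgroup (UU N)}

/-- The product of the link variables around the plaquette at `x` in the directions `i`, `j`. -/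
def plaq (U : Link d l → G) (x : Fin d → ZMod l) (i j : Fin d) : G :=
  U (x, i) * U (x + Pi.single i 1, j) * (U (x + Pi.single j 1, i))⁻¹ * (U (x, j))⁻¹

/-- The Wilson action `∑_p Re tr (1 - U_p)`, the sum over the plaquettes. -/
def action [NeZero l] (U : Link d l → G) : ℝ :=
  ∑ x : Fin d → ZMod l, ∑ i : Fin d, ∑ j : Fin d,
    if i < j then (trace (1 - mt (plaq U x i j))).re else 0

/-- The periodic extension of a configuration. -/
def per (U : Link d l → G) : LinkZ d → G := fun e => U (fun i => (e.1 i : ZMod l), e.2)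

/-- The expectation of `F` in the lattice Yang-Mills theory on `(ℤ/l)^d`, `μ` being the Haar
measure. -/
def expect (l : ℕ) [NeZero l] [MeasurableSpace G] (μ : Measure G) (β : ℝ)
    (F : (LinkZ d → G) → ℝ) : ℝ :=
  (∫ U : Link d l → G, F (per U) * Real.exp (-(β * action U)) ∂(Measure.pi fun _ => μ)) /
    ∫ U : Link d l → G, Real.exp (-(β * action U)) ∂(Measure.pi fun _ => μ)

/-- `ν` is an infinite volume limit (weak limit along a subsequence) of the theories on the tori of
even side at inverse coupling `β`. -/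
structure IsInfVol [MeasurableSpace G] (μ : Measure G) (β : ℝ)
    (ν : Measure (LinkZ d → G)) : Prop where
  prob : IsProbabilityMeasure ν
  lim : ∃ s : ℕ → ℕ, Tendsto s atTop atTop ∧ ∀ F : (LinkZ d → G) → ℝ, Continuous F →
    Tendsto (fun j => expect (2 * (s j + 1)) μ β F) atTop (𝓝 (∫ V, F V ∂ν))

/-- The displacement of a step: `(i, true)` is the step by one unit in the direction `i`,
`(i, false)` the step back. -/
def step (s : Fin d × Bool) : Fin d → ℤ := if s.2 then Pi.single s.1 1 else -Pi.single s.1 1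

/-- The path with the steps `p` is closed. -/
def Closed (p : List (Fin d × Bool)) : Prop := (p.map step).sum = 0

/-- The product of the link variables along the path with the steps `p` from `x`; a link which is
passed backwards enters with the inverse. -/
def hol (V : LinkZ d → G) : (Fin d → ℤ) → List (Fin d × Bool) → G
  | _, [] => 1
  | x, s :: p => (if s.2 then V (x, s.1) else (V (x - Pi.single s.1 1, s.1))⁻¹) *
      hol V (x + step s) p

/-- The Wilson loop variable `Re tr U(c)` of the path `c` with the steps `p` from `x`. -/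
def loopVar (V : LinkZ d → G) (x : Fin d → ℤ) (p : List (Fin d × Bool)) : ℝ :=
  (trace (mt (hol V x p))).re

/-- The links of the path with the steps `p` from `x`: base point, direction, and the sign of the
orientation. -/
def links : (Fin d → ℤ) → List (Fin d × Bool) → List ((Fin d → ℤ) × Fin d × ℝ)
  | _, [] => []
  | x, s :: p => (if s.2 then x else x - Pi.single s.1 1, s.1, if s.2 then 1 else -1) ::
      links (x + step s) p

/-- The site of the lattice `ℤ^d` next to the point `s x`: it represents the point of the lattice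
`(1/s) ℤ^d` next to `x`. -/
def site (s : ℕ) (x : Fin d → ℝ) : Fin d → ℤ := fun i => ⌊s * x i⌋

/-- The circulation `∮ z_j dz_k` of the lattice path with the steps `p` from the origin. -/
def area (p : List (Fin d × Bool)) (j k : Fin d) : ℝ :=
  ((links 0 p).map fun e => if e.2.1 = k then e.2.2 * (e.1 j : ℝ) else 0).sum

/-- The derivative `-∂_j ∂_k` of the Newton potential of `ℝ^d`, the fundamental solution of
`-Δ`. -/
def hess (j k : Fin d) (x : Fin d → ℝ) : ℝ :=
  Real.Gamma (d / 2) / (2 * Real.pi ^ ((d : ℝ) / 2)) *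
    (((if j = k then ∑ i, x i ^ 2 else 0) - d * (x j * x k)) / (∑ i, x i ^ 2) ^ ((d : ℝ) / 2 + 1))

/-- The covariance of `∑_{j,k} area p j k ∂_j A_k(y + x)` and `∑_{l,k} area p' l k ∂_l A_k(y)`, `A`
the free Maxwell field of `ℝ^d` (with the propagator `δ_{ij} (-Δ)⁻¹` of the Feynman gauge; for
closed paths these are gauge invariant, linear in the curvature). -/
def fluxCov (p p' : List (Fin d × Bool)) (x : Fin d → ℝ) : ℝ :=
  ∑ j, ∑ k, ∑ l, area p j k * area p' l k * hess j l x

/-- The number of cycles (orbits) of a permutation. -/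
def cycles {r : ℕ} (σ : Equiv.Perm (Fin r)) : ℕ := Nat.card (Quot fun i j : Fin r => σ i = j)

/-- The correlation function at the points `x_i` of the fields `(1/2) ∑_{a ≤ n} :(Φ^a_{p_i})^2:`,
`Φ^a_p(x) = ∑_{j,k} area p j k ∂_j A^a_k(x)`, `A^1, ..., A^n` independent free Maxwell fields, as a
sum over the permutations without fixed points. -/
def maxwell {r : ℕ} (n : ℕ) (x : Fin r → Fin d → ℝ) (p : Fin r → List (Fin d × Bool)) : ℝ :=
  ∑ σ : Equiv.Perm (Fin r), if ∀ i, σ i ≠ i then
    ((n : ℝ) / 2) ^ cycles σ * ∏ i, fluxCov (p i) (p (σ i)) (x i - x (σ i)) else 0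

/-- The correlation function at the points `x_i` of the rescaled fields
`s^d β (⟨W_{p_i}⟩ - W_{p_i})` of the theory with the law `ν`, on the lattice `(1/s) ℤ^d`. -/
def lattice [MeasurableSpace G] {r : ℕ} (ν : Measure (LinkZ d → G)) (β : ℝ) (s : ℕ)
    (x : Fin r → Fin d → ℝ) (p : Fin r → List (Fin d × Bool)) : ℝ :=
  ∫ V, ∏ i, (s ^ d * β * ((∫ U, loopVar U (site s (x i)) (p i) ∂ν) -
    loopVar V (site s (x i)) (p i))) ∂ν

end

open Pool.Agent.H906R3 Pool.Agent.W793 Pool.Agent.TH618 Pool.Agent.W2helper67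

variable {N n d l r : ℕ} {G : Subgroup (UU N)}

/-- A Haar probability measure is invariant under right multiplications. -/
lemma right_inv {H : Type*} [Group H] [TopologicalSpace H] [IsTopologicalGroup H]
    [CompactSpace H] [MeasurableSpace H] [BorelSpace H] (μ : Measure H)
    [IsProbabilityMeasure μ] [μ.IsHaarMeasure] : μ.IsMulRightInvariant := by
  refine ⟨fun g => ?_⟩
  have h1 : IsProbabilityMeasure (Measure.map (fun x => x * g) μ) :=
    Measure.isProbabilityMeasure_map (measurable_mul_const g).aemeasurable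
  exact Measure.isHaarMeasure_eq_of_isProbabilityMeasure _ _

/-- A Haar probability measure is invariant under the inversion. -/
lemma inv_inv' {H : Type*} [Group H] [TopologicalSpace H] [IsTopologicalGroup H]
    [CompactSpace H] [MeasurableSpace H] [BorelSpace H] (μ : Measure H)
    [IsProbabilityMeasure μ] [μ.IsHaarMeasure] : μ.IsInvInvariant := by
  have hr := right_inv μ
  refine ⟨?_⟩
  have h1 : IsProbabilityMeasure μ.inv :=
    Measure.isProbabilityMeasure_map measurable_inv.aemeasurable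
  have h2 : μ.inv.IsMulLeftInvariant := inferInstance
  have h3 : μ.inv.IsHaarMeasure :=
    Measure.isHaarMeasure_of_isCompact_nonempty_interior μ.inv Set.univ isCompact_univ
      (by simp) (by simp) (by simp)
  exact Measure.isHaarMeasure_eq_of_isProbabilityMeasure _ _

lemma dim_eq (B : YM.Frame G n) : dimG G = n := by
  have hli : LinearIndependent ℝ B.X := by
    rw [Fintype.linearIndependent_iff]
    intro c hc a
    have h1 : (trace ((B.X a)ᴴ * ∑ b, c b • B.X b)).re = c a := by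
      rw [Finset.mul_sum, trace_sum, Complex.re_sum]
      have h2 : ∀ b, (trace ((B.X a)ᴴ * (c b • B.X b))).re = if a = b then c b else 0 := by
        intro b
        rw [Matrix.mul_smul, trace_smul, Complex.smul_re, B.orth, smul_eq_mul, mul_ite, mul_one,
          mul_zero]
      simp only [h2]
      rw [Finset.sum_ite_eq Finset.univ a, if_pos (Finset.mem_univ a)]
    rw [hc, mul_zero, trace_zero] at h1
    exact h1.symm
  have hspan : Submodule.span ℝ {Y : Mt N | ∀ t : ℝ, ∃ g : G, mt g = NormedSpace.exp (t • Y)} =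
      Submodule.span ℝ (Set.range B.X) := by
    refine le_antisymm (Submodule.span_le.2 fun Y hY => B.full Y hY) (Submodule.span_le.2 ?_)
    rintro _ ⟨a, rfl⟩
    exact Submodule.subset_span fun t => ⟨B.ex a t, B.ex_eq a t⟩
  unfold dimG
  rw [hspan, finrank_span_eq_card hli, Fintype.card_fin]

section bridge

variable [CompactSpace G] [SecondCountableTopology G] [MeasurableSpace G] [BorelSpace G]
  (μ : Measure G) [IsProbabilityMeasure μ] [μ.IsHaarMeasure] (B : YM.Frame G n)

lemma expect_eq [NeZero l] (β : ℝ) (F : (LinkZ d → G) → ℝ) : expect l μ β F =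
    YM.EX μ B.toLD β (fun U : YM.Ed d l → G => F (YM.lf U)) := by
  unfold expect YM.EX YM.Zt
  simp only [one_mul]
  rfl

include B in
lemma action_cont [NeZero l] : Continuous (action : (Link d l → G) → ℝ) :=
  YM.act_cont (L := B.toLD)

include B in
/-- existence of infinite volume limits -/
lemma exists_infVol (β : ℝ) : ∃ ν : Measure (LinkZ d → G), IsInfVol μ β ν := by
  have hP : ∀ j : ℕ, ∃ P : ProbabilityMeasure (LinkZ d → G),
      ∀ F : (LinkZ d → G) → ℝ, Continuous F →
        ∫ V, F V ∂(P : Measure (LinkZ d → G)) = expect (2 * (j + 1)) μ β F := by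
    intro j
    have hper : Continuous (per : (Link d (2 * (j + 1)) → G) → LinkZ d → G) :=
      continuous_pi fun e => continuous_apply _
    have hexp : Continuous fun U : Link d (2 * (j + 1)) → G =>
        Real.exp (-(β * action U)) :=
      Real.continuous_exp.comp (continuous_const.mul (action_cont B)).neg
    have hint : Integrable (fun U : Link d (2 * (j + 1)) → G =>
        Real.exp (-(β * action U))) (Measure.pi fun _ => μ) :=
      hexp.integrable_of_hasCompactSupport (HasCompactSupport.of_compactSpace _)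
    have h1 := isProbabilityMeasure_tilted (f := fun U : Link d (2 * (j + 1)) → G =>
      -(β * action U)) hint
    refine ⟨⟨((Measure.pi fun _ => μ).tilted fun U : Link d (2 * (j + 1)) → G =>
      -(β * action U)).map per, Measure.isProbabilityMeasure_map hper.aemeasurable⟩,
      fun F hF => ?_⟩
    show ∫ V, F V ∂(((Measure.pi fun _ => μ).tilted fun U : Link d (2 * (j + 1)) → G =>
      -(β * action U)).map per) = _
    rw [integral_map hper.aemeasurable hF.aestronglyMeasurable, integral_tilted]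
    unfold expect
    rw [← integral_div]
    refine integral_congr_ae (Filter.Eventually.of_forall fun U => ?_)
    simp only [smul_eq_mul]
    ring
  choose P hP using hP
  obtain ⟨ν, s, hs, hlim⟩ := CompactSpace.tendsto_subseq P
  refine ⟨ν, ⟨inferInstance, s, hs.tendsto_atTop, fun F hF => ?_⟩⟩
  have h1 := (ProbabilityMeasure.tendsto_iff_forall_integral_tendsto.1 hlim)
    (BoundedContinuousFunction.mkOfCompact ⟨F, hF⟩)
  simp only [Function.comp_apply, BoundedContinuousFunction.mkOfCompact_apply,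
    ContinuousMap.coe_mk] at h1
  simpa only [hP _ F hF] using h1

lemma hol_eq (V : LinkZ d → G) (x : Fin d → ℤ) (p : List (Fin d × Bool)) :
    hol V x p = YM.hol V x p := by
  induction p generalizing x with
  | nil => rfl
  | cons s p ih =>
    obtain ⟨i, s⟩ := s
    cases s with
    | true =>
      simp only [hol, YM.hol, if_true]
      rw [ih]; rfl
    | false =>
      simp only [hol, YM.hol, Bool.false_eq_true, if_false]
      rw [ih, sub_eq_add_neg]; rfl

lemma links_eq (x : Fin d → ℤ) (p : List (Fin d × Bool)) : links x p = YM.edges x p := by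
  induction p generalizing x with
  | nil => rfl
  | cons s p ih => rw [links, YM.edges, ih]; rfl

lemma mt_cont : Continuous (mt : G → Mt N) := continuous_subtype_val.comp continuous_subtype_val

lemma loopVar_cont (x : Fin d → ℤ) (p : List (Fin d × Bool)) :
    Continuous fun V : LinkZ d → G => loopVar V x p := by
  unfold loopVar
  simp only [hol_eq]
  exact Complex.continuous_re.comp (mt_cont.comp (YM.hol_cont x p)).matrix_trace

include B in
lemma we_eq (V : LinkZ d → G) (x : Fin d → ℤ) (p : List (Fin d × Bool)) :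
    (N : ℝ) - loopVar V x p = YM.we B.toLD (YM.hol V x p) := by
  rw [YM.we_tr]
  unfold loopVar
  rw [hol_eq]
  rfl

/-- the estimate in the infinite volume -/
lemma infvol_core [μ.IsMulRightInvariant] [μ.IsInvInvariant] {C0 : ℝ} (hC0 : 0 ≤ C0)
    (hcar : ∀ g : G, YM.dv B.toLD g ^ 2 ≤ ∑ a, YM.fi B.toLD a g ^ 2 + C0 * YM.dv B.toLD g ^ 4)
    (hd : 3 ≤ d) (r : ℕ) : ∃ C : ℝ, 0 < C ∧ ∀ t : ℝ, 2 ≤ t → ∀ ν : Measure (LinkZ d → G),
    IsInfVol μ ((t ^ YM.eQ d r) ^ 4) ν → ∀ (x0 : Fin d → ℤ) (x : Fin r → Fin d → ℤ)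
      (p : Fin r → List (Fin d × Bool)), (∀ i, Closed (p i)) →
      (∀ i, ((p i).length : ℝ) ≤ t) → (∀ i k, (|x i k - x0 k| : ℤ) ≤ t) →
      |∫ V, ∏ i, ((t ^ YM.eQ d r) ^ 4 * (N - loopVar V (x i) (p i))) ∂ν -
        ∫ ω, ∏ i, (1 / 2 * ∑ a, ω (i, a) ^ 2)
          ∂(ProbabilityTheory.multivariateGaussian 0 (YM.cvM n x p))| ≤ C / t := by
  obtain ⟨C, hC, h⟩ := YM.torus_est μ (L := B.toLD) hC0 hcar hd r (YM.gm r) (YM.gm_nonneg r)
  refine ⟨C, hC, fun t ht ν hν x0 x p hcl hlen hx0 => ?_⟩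
  have ht0 : 0 < t := by linarith
  obtain ⟨s, hs, hlim⟩ := hν.lim
  obtain ⟨β, hβ⟩ : ∃ β, β = (t ^ YM.eQ d r) ^ 4 := ⟨_, rfl⟩
  rw [← hβ] at hlim ⊢
  obtain ⟨T, hT⟩ : ∃ T, T = ⌊t⌋₊ := ⟨_, rfl⟩
  have hTt : (T : ℝ) ≤ t := by rw [hT]; exact Nat.floor_le ht0.le
  have hlen' : ∀ i, (p i).length ≤ T := fun i => by
    rw [hT]; exact Nat.le_floor (hlen i)
  have hx0' : ∀ i k, |x i k - x0 k| ≤ (T : ℤ) := fun i k => by
    have h1 : ((|x i k - x0 k|).toNat : ℝ) ≤ t := by
      have h2 : (((|x i k - x0 k|).toNat : ℤ) : ℝ) = ((|x i k - x0 k| : ℤ) : ℝ) := by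
        rw [Int.toNat_of_nonneg (abs_nonneg _)]
      have h3 := hx0 i k
      rw [← h2] at h3
      exact_mod_cast h3
    have h4 : (|x i k - x0 k|).toNat ≤ T := by rw [hT]; exact Nat.le_floor h1
    omega
  have hdest : ∀ i, YM.dest (x i) (p i) = x i := fun i => by
    rw [YM.dest_eq]
    have := hcl i
    unfold Closed at this
    have h2 : (p i).map W2helper67.YM.sv = (p i).map step := rfl
    rw [h2, this, add_zero]
  obtain ⟨I, hI⟩ : ∃ I, I = ∫ ω, ∏ i, ∑ a, ω (i, a) ^ 2
    ∂(ProbabilityTheory.multivariateGaussian 0 (YM.cvM n x p)) := ⟨_, rfl⟩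
  have hcont : Continuous fun V : LinkZ d → G => ∏ i, (2 * (β * (N - loopVar V (x i) (p i)))) :=
    continuous_finsetProd _ fun i _ => continuous_const.mul (continuous_const.mul
      (continuous_const.sub (loopVar_cont _ _)))
  have key : |∫ V, ∏ i, (2 * (β * (N - loopVar V (x i) (p i)))) ∂ν - I| ≤ C / t := by
    have h1 := ((hlim _ hcont).sub_const I).abs
    refine le_of_tendsto h1 ?_
    filter_upwards [hs.eventually_ge_atTop (3 * ⌈t ^ YM.eB r⌉₊ + 5)] with j hj
    have h2 := h t ht (s j + 1) (by omega) T hTt x0 x p hlen' hdest hx0'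
      (EuclideanSpace ℝ (Fin r × Fin n))
      (ProbabilityTheory.multivariateGaussian 0 (YM.cvM n x p)) (fun i a ω => ω (i, a))
      (YM.GF_multi hd x p)
    rw [← hβ, ← hI] at h2
    have h3 : expect (2 * (s j + 1)) μ β
        (fun V : LinkZ d → G => ∏ i, (2 * (β * (N - loopVar V (x i) (p i))))) =
        YM.EX μ B.toLD β (fun U : YM.Ed d (2 * (s j + 1)) → G =>
          ∏ i, (2 * (β * YM.we B.toLD (YM.hol (YM.lf U) (x i) (p i))))) := by
      rw [expect_eq μ B]
      congr 1
      funext U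
      refine Finset.prod_congr rfl fun i _ => ?_
      rw [we_eq B]
    rw [h3]
    exact h2
  have e1 : ∫ V, ∏ i, (2 * (β * (N - loopVar V (x i) (p i)))) ∂ν =
      2 ^ r * ∫ V, ∏ i, (β * (N - loopVar V (x i) (p i))) ∂ν := by
    simp only [Finset.prod_mul_distrib, Finset.prod_const, Finset.card_univ, Fintype.card_fin]
    rw [integral_const_mul]
  have e2 : I = 2 ^ r * ∫ ω, ∏ i, (1 / 2 * ∑ a, ω (i, a) ^ 2)
          ∂(ProbabilityTheory.multivariateGaussian 0 (YM.cvM n x p)) := by
    rw [hI]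
    simp only [Finset.prod_mul_distrib, Finset.prod_const, Finset.card_univ, Fintype.card_fin]
    rw [integral_const_mul, ← mul_assoc, ← mul_pow]
    norm_num
  rw [e1, e2, ← mul_sub, abs_mul, abs_of_pos (by positivity : (0 : ℝ) < 2 ^ r)] at key
  have h2r : (1 : ℝ) ≤ 2 ^ r := one_le_pow₀ (by norm_num)
  exact (le_mul_of_one_le_left (abs_nonneg _) h2r).trans key

/-- the estimate in the infinite volume in terms of the coupling -/
lemma infvol_beta [μ.IsMulRightInvariant] [μ.IsInvInvariant] {C0 : ℝ} (hC0 : 0 ≤ C0)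
    (hcar : ∀ g : G, YM.dv B.toLD g ^ 2 ≤ ∑ a, YM.fi B.toLD a g ^ 2 + C0 * YM.dv B.toLD g ^ 4)
    (hd : 3 ≤ d) (r q : ℕ) (hq : YM.eQ d r ≤ q) : ∃ C : ℝ, 0 < C ∧ ∀ β : ℝ, 2 ^ (4 * q) ≤ β →
    ∀ ν : Measure (LinkZ d → G), IsInfVol μ β ν → ∀ (x0 : Fin d → ℤ) (x : Fin r → Fin d → ℤ)
      (p : Fin r → List (Fin d × Bool)), (∀ i, Closed (p i)) →
      (∀ i, ((p i).length : ℝ) ≤ β ^ (1 / (16 * q) : ℝ)) →
      (∀ i k, (|x i k - x0 k| : ℤ) ≤ β ^ (1 / (16 * q) : ℝ)) →
      |∫ V, ∏ i, (β * (N - loopVar V (x i) (p i))) ∂ν -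
        ∫ ω, ∏ i, (1 / 2 * ∑ a, ω (i, a) ^ 2)
          ∂(ProbabilityTheory.multivariateGaussian 0 (YM.cvM n x p))| ≤
            C * β ^ (-(4 * (1 / (16 * q))) : ℝ) := by
  obtain ⟨C, hC, h⟩ := infvol_core μ B hC0 hcar hd r
  refine ⟨C, hC, fun β hβ ν hν x0 x p hcl hlen hx0 => ?_⟩
  have hQ1 : 1 ≤ YM.eQ d r := YM.eQ_pos d r
  have hq1 : 1 ≤ q := hQ1.trans hq
  have hQ0 : (0 : ℝ) < YM.eQ d r := by exact_mod_cast hQ1
  have hq0 : (0 : ℝ) < q := by exact_mod_cast hq1
  have hβ1 : 1 ≤ β := le_trans (one_le_pow₀ (by norm_num)) hβ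
  have hβ0 : 0 < β := by linarith
  obtain ⟨t, ht⟩ : ∃ t : ℝ, t = β ^ (1 / (4 * YM.eQ d r) : ℝ) := ⟨_, rfl⟩
  have ht4 : (t ^ YM.eQ d r) ^ 4 = β := by
    rw [ht, ← pow_mul, ← Real.rpow_natCast, ← Real.rpow_mul hβ0.le]
    push_cast
    rw [show (1 / (4 * (YM.eQ d r : ℝ))) * ((YM.eQ d r : ℝ) * 4) = 1 by field_simp, Real.rpow_one]
  have hle : (4 * (1 / (16 * q)) : ℝ) ≤ 1 / (4 * YM.eQ d r) := by
    rw [show (4 * (1 / (16 * q)) : ℝ) = 1 / (4 * q) by field_simp; ring]
    refine one_div_le_one_div_of_le (by positivity) ?_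
    have : (YM.eQ d r : ℝ) ≤ q := by exact_mod_cast hq
    linarith
  have hkt : β ^ (4 * (1 / (16 * q)) : ℝ) ≤ t := by
    rw [ht]; exact Real.rpow_le_rpow_of_exponent_le hβ1 hle
  have hkt1 : β ^ (1 / (16 * q) : ℝ) ≤ t := by
    refine le_trans (Real.rpow_le_rpow_of_exponent_le hβ1 ?_) hkt
    have : (0 : ℝ) ≤ 1 / (16 * q) := by positivity
    linarith
  have ht2 : 2 ≤ t := by
    refine le_trans ?_ hkt
    calc (2 : ℝ) = (2 ^ (4 * q) : ℝ) ^ (4 * (1 / (16 * q)) : ℝ) := by
          rw [← Real.rpow_natCast, ← Real.rpow_mul (by norm_num)]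
          push_cast
          rw [show (4 * (q : ℝ)) * (4 * (1 / (16 * q))) = 1 by field_simp; norm_num, Real.rpow_one]
      _ ≤ β ^ (4 * (1 / (16 * q)) : ℝ) := Real.rpow_le_rpow (by positivity) hβ (by positivity)
  have key := h t ht2 ν (by rw [ht4]; exact hν) x0 x p hcl (fun i => (hlen i).trans hkt1)
    (fun i k => (hx0 i k).trans hkt1)
  rw [ht4] at key
  refine key.trans ?_
  rw [Real.rpow_neg hβ0.le, div_eq_mul_inv]
  refine mul_le_mul_of_nonneg_left ?_ hC.le
  exact inv_anti₀ (by positivity) hkt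

end bridge

lemma area_eq (p : List (Fin d × Bool)) (j k : Fin d) : area p j k = YM.ar j k p := by
  unfold area YM.ar
  rw [links_eq]

lemma maxwell_eq (n : ℕ) (x : Fin r → Fin d → ℝ) (p : Fin r → List (Fin d × Bool)) :
    maxwell n x p = ∑ σ : Equiv.Perm (Fin r), if ∀ i, σ i ≠ i then
      ((n : ℝ) / 2) ^ YM.ncyc σ * ∏ i, ∑ j, ∑ k, ∑ l,
        YM.ar j k (p i) * YM.ar l k (p (σ i)) * YM.nk j l (x i - x (σ i)) else 0 := by
  unfold maxwell fluxCov
  simp only [area_eq]
  rfl

lemma site_abs (s : ℕ) (x : Fin d → ℝ) (k : Fin d) : |((site s x k : ℤ) : ℝ)| ≤ s * |x k| + 1 := by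
  unfold site
  have h1 := Int.floor_le ((s : ℝ) * x k)
  have h2 := Int.lt_floor_add_one ((s : ℝ) * x k)
  have h3 : |(s : ℝ) * x k| = s * |x k| := by
    rw [abs_mul, abs_of_nonneg (Nat.cast_nonneg s)]
  have h4 := abs_le.1 h3.le
  rw [abs_le]
  constructor <;> linarith [h4.1, h4.2]

lemma site_lim (x : Fin d → ℝ) (k : Fin d) :
    Tendsto (fun s : ℕ => ((site s x k : ℤ) : ℝ) / s) atTop (𝓝 (x k)) := by
  have h1 : Tendsto (fun s : ℕ => 1 / (s : ℝ)) atTop (𝓝 0) := tendsto_one_div_atTop_nhds_zero_nat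
  rw [tendsto_iff_norm_sub_tendsto_zero]
  refine squeeze_zero_norm' ?_ h1
  filter_upwards [eventually_ge_atTop 1] with s hs
  have hs0 : (0 : ℝ) < s := by exact_mod_cast hs
  rw [norm_norm, Real.norm_eq_abs]
  have e : ((site s x k : ℤ) : ℝ) / s - x k = (((site s x k : ℤ) : ℝ) - s * x k) / s := by
    field_simp
  rw [e, abs_div, abs_of_pos hs0]
  refine div_le_div_of_nonneg_right ?_ hs0.le
  unfold site
  have h2 := Int.floor_le ((s : ℝ) * x k)
  have h3 := Int.lt_floor_add_one ((s : ℝ) * x k)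
  rw [abs_le]
  constructor <;> linarith

theorem result {d : ℕ} (hd : 3 ≤ d) (r : ℕ) : ∃ A : ℝ, 0 < A ∧ ∀ {N : ℕ} (G : Subgroup (UU N))
    (hG : IsClosed (G : Set (UU N))) [MeasurableSpace G] [BorelSpace G]
    (μ : Measure G) [IsProbabilityMeasure μ] [μ.IsHaarMeasure] (β : ℕ → ℝ),
    (∀ᶠ s : ℕ in atTop, (s : ℝ) ^ A ≤ β s) →
      (∃ ν : ℕ → Measure (LinkZ d → G), ∀ s, IsInfVol μ (β s) (ν s)) ∧
      ∀ ν : ℕ → Measure (LinkZ d → G), (∀ s, IsInfVol μ (β s) (ν s)) →
        ∀ (x : Fin r → Fin d → ℝ) (p : Fin r → List (Fin d × Bool)), Function.Injective x →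
          (∀ i, Closed (p i)) →
          Tendsto (fun s => lattice (ν s) (β s) s x p) atTop (𝓝 (maxwell (dimG G) x p)) := by
  obtain ⟨q, hq⟩ : ∃ q, q = ∑ m ∈ Finset.range (r + 2), YM.eQ d m := ⟨_, rfl⟩
  have hqm : ∀ m, m ≤ r + 1 → YM.eQ d m ≤ q := fun m hm => by
    rw [hq]
    exact Finset.single_le_sum (f := fun m => YM.eQ d m) (fun _ _ => Nat.zero_le _)
      (Finset.mem_range.2 (by omega))
  have hq0 : 1 ≤ q := (YM.eQ_pos d 1).trans (hqm 1 (by omega))
  have hq0' : (0 : ℝ) < q := by exact_mod_cast hq0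
  obtain ⟨κ, hκ⟩ : ∃ κ : ℝ, κ = 1 / (16 * q) := ⟨_, rfl⟩
  have hκ0 : 0 < κ := by rw [hκ]; positivity
  refine ⟨(d * r + 2) / κ, by positivity, fun {N} G hG _ _ μ _ _ β hβs => ?_⟩
  have : CompactSpace G := by
    have h1 : IsCompact (G : Set (UU N)) := hG.isCompact
    exact isCompact_iff_compactSpace.1 h1
  have h00 : SecondCountableTopology (UU N) := TopologicalSpace.Subtype.secondCountableTopology _
  have : SecondCountableTopology G := TopologicalSpace.Subtype.secondCountableTopology _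
  have := right_inv μ
  have := inv_inv' μ
  obtain ⟨n, ⟨B⟩⟩ := YM.exists_frame hG
  obtain ⟨C0, hC0, hcar⟩ := YM.cartan' B hG
  rw [dim_eq B]
  refine ⟨⟨fun s => (exists_infVol μ B (β s)).choose,
    fun s => (exists_infVol μ B (β s)).choose_spec⟩, fun ν hν x p hx hp => ?_⟩
  have hall : ∀ m : ℕ, m ≤ r + 1 → ∃ C : ℝ, 0 < C ∧ ∀ β : ℝ, 2 ^ (4 * q) ≤ β →
      ∀ ν : Measure (LinkZ d → G), IsInfVol μ β ν → ∀ (x0 : Fin d → ℤ) (x : Fin m → Fin d → ℤ)
      (p : Fin m → List (Fin d × Bool)), (∀ i, Closed (p i)) →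
      (∀ i, ((p i).length : ℝ) ≤ β ^ κ) →
      (∀ i k, (|x i k - x0 k| : ℤ) ≤ β ^ κ) →
      |∫ V, ∏ i, (β * (N - loopVar V (x i) (p i))) ∂ν -
        ∫ ω, ∏ i, (1 / 2 * ∑ a, ω (i, a) ^ 2)
          ∂(ProbabilityTheory.multivariateGaussian 0 (YM.cvM n x p))| ≤
            C * β ^ (-(4 * κ)) := by
    intro m hm
    rw [hκ]
    exact infvol_beta μ B hC0.le hcar hd m q (hqm m hm)
  choose! C hC hmain using hall
  obtain ⟨Cm, hCm⟩ : ∃ Cm, Cm = ∑ m ∈ Finset.range (r + 2), C m := ⟨_, rfl⟩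
  have hCle : ∀ m, m ≤ r + 1 → C m ≤ Cm := fun m hm => by
    rw [hCm]
    exact Finset.single_le_sum (f := fun m => C m) (fun i hi => (hC i (by
      have := Finset.mem_range.1 hi; omega)).le) (Finset.mem_range.2 (by omega))
  have hCm0 : 0 < Cm := (hC 1 (by omega)).trans_le (hCle 1 (by omega))
  -- the sites
  obtain ⟨y, hy⟩ : ∃ y : ℕ → Fin r → Fin d → ℤ, y = fun s i => site s (x i) := ⟨_, rfl⟩
  -- the length
  obtain ⟨L, hL⟩ : ∃ L : ℝ, L = ∑ i, ((p i).length : ℝ) := ⟨_, rfl⟩
  have hL0 : 0 ≤ L := by rw [hL]; positivity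
  have hLi : ∀ i, ((p i).length : ℝ) ≤ L := fun i => by
    rw [hL]
    exact Finset.single_le_sum (f := fun i => ((p i).length : ℝ))
      (fun _ _ => Nat.cast_nonneg _) (Finset.mem_univ i)
  obtain ⟨X, hX⟩ : ∃ X : ℝ, X = ∑ i, ∑ k, |x i k| := ⟨_, rfl⟩
  have hX0 : 0 ≤ X := by rw [hX]; positivity
  have hXi : ∀ i k, |x i k| ≤ X := fun i k => by
    rw [hX]
    refine le_trans ?_ (Finset.single_le_sum (f := fun i => ∑ k, |x i k|)
      (fun _ _ => Finset.sum_nonneg fun _ _ => abs_nonneg _) (Finset.mem_univ i))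
    exact Finset.single_le_sum (f := fun k => |x i k|) (fun _ _ => abs_nonneg _)
      (Finset.mem_univ k)
  obtain ⟨s0, hs0⟩ := exists_nat_ge (L + X + 1 + 2 ^ (4 * q))
  have hev : ∀ᶠ s : ℕ in atTop, 1 ≤ (s : ℝ) ∧ 2 ^ (4 * q) ≤ β s ∧
      (s : ℝ) ^ (d * r + 2) ≤ β s ^ κ ∧ L ≤ β s ^ κ ∧ ∀ i k, |((y s i k : ℤ) : ℝ)| ≤ β s ^ κ := by
    filter_upwards [hβs, eventually_ge_atTop s0, eventually_ge_atTop 1] with s hs1 hs2 hs3
    have hs3' : (1 : ℝ) ≤ s := by exact_mod_cast hs3
    have hs0' : (0 : ℝ) < s := by linarith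
    have hs4 : L + X + 1 + 2 ^ (4 * q) ≤ (s : ℝ) := hs0.trans (by exact_mod_cast hs2)
    have h2q : (0 : ℝ) < 2 ^ (4 * q) := by positivity
    have h1 : (s : ℝ) ^ (d * r + 2) ≤ β s ^ κ := by
      calc (s : ℝ) ^ (d * r + 2) = ((s : ℝ) ^ (((d : ℝ) * r + 2) / κ)) ^ κ := by
            rw [← Real.rpow_mul hs0'.le, div_mul_cancel₀ _ hκ0.ne', ← Real.rpow_natCast]
            push_cast
            rfl
        _ ≤ β s ^ κ := Real.rpow_le_rpow (by positivity) hs1 hκ0.le
    have h2 : (s : ℝ) ^ 2 ≤ (s : ℝ) ^ (d * r + 2) := pow_le_pow_right₀ hs3' (by omega)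
    have h3 : L + X * s + 1 ≤ (s : ℝ) ^ 2 := by
      have e1 : (L + X + 1) * s ≤ s * s := mul_le_mul_of_nonneg_right (by linarith) hs0'.le
      nlinarith
    refine ⟨hs3', ?_, h1, ?_, fun i k => ?_⟩
    · have e1 : (s : ℝ) ^ (1 : ℝ) ≤ (s : ℝ) ^ (((d : ℝ) * r + 2) / κ) := by
        refine Real.rpow_le_rpow_of_exponent_le hs3' ?_
        rw [le_div_iff₀ hκ0, one_mul]
        have e2 : κ ≤ 1 := by
          rw [hκ, div_le_one (by positivity)]
          have : (1 : ℝ) ≤ q := by exact_mod_cast hq0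
          linarith
        have : (0 : ℝ) ≤ d * r := by positivity
        linarith
      rw [Real.rpow_one] at e1
      linarith
    · have : 0 ≤ X * s := by positivity
      linarith
    · rw [hy]
      have e1 := site_abs s (x i) k
      have e2 : s * |x i k| ≤ X * s := by
        rw [mul_comm]; exact mul_le_mul_of_nonneg_right (hXi i k) hs0'.le
      linarith
  -- the moments of the sub-families
  obtain ⟨φ, hφ⟩ : ∃ φ : ℕ → ℝ, φ = fun s : ℕ => (s : ℝ) ^ (d * r) := ⟨_, rfl⟩
  have hα : (0 : ℝ) ≤ (n : ℝ) / 2 := by positivity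
  have key : ∀ (m : ℕ), m ≤ r + 1 → ∀ f : Fin m → Fin r,
      YM.Nr φ (fun s => ∫ V, ∏ j, (β s * (N - loopVar V (y s (f j)) (p (f j)))) ∂(ν s))
        (fun s => YM.aper ((n : ℝ) / 2) fun j j' : Fin m =>
          YM.cv (y s (f j)) (p (f j)) (y s (f j')) (p (f j'))) := by
    intro m hm f
    have hcv : ∀ s (j j' : Fin m), |YM.cv (y s (f j)) (p (f j)) (y s (f j')) (p (f j'))| ≤
        L * L * (7 * YM.cw d) := by
      intro s j j'
      refine (YM.cv_abs hd _ _ _ _).trans ?_
      have hcw := YM.cw_nonneg d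
      refine mul_le_mul_of_nonneg_right ?_ (by positivity)
      exact mul_le_mul (hLi _) (hLi _) (Nat.cast_nonneg _) hL0
    obtain ⟨K, hK⟩ : ∃ K : ℝ, K = ∑ σ : Equiv.Perm (Fin m), ((n : ℝ) / 2) ^ YM.ncyc σ *
      (L * L * (7 * YM.cw d)) ^ Fintype.card (Fin m) := ⟨_, rfl⟩
    have hcw := YM.cw_nonneg d
    have hK0 : 0 ≤ K := by rw [hK]; positivity
    have hKb : ∀ s, |YM.aper ((n : ℝ) / 2) fun j j' : Fin m =>
        YM.cv (y s (f j)) (p (f j)) (y s (f j')) (p (f j'))| ≤ K := by
      intro s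
      rw [hK]
      exact YM.aper_abs hα _ (by positivity) _ fun j j' => hcv s j j'
    have hdiff : ∀ᶠ s : ℕ in atTop, 1 ≤ (s : ℝ) ∧
        |(∫ V, ∏ j, (β s * (N - loopVar V (y s (f j)) (p (f j)))) ∂(ν s)) -
        YM.aper ((n : ℝ) / 2) fun j j' : Fin m =>
          YM.cv (y s (f j)) (p (f j)) (y s (f j')) (p (f j'))| ≤ Cm * (1 / (s : ℝ) ^ (d * r + 1)) := by
      filter_upwards [hev] with s ⟨h1, h2, h3, h4, h5⟩
      refine ⟨h1, ?_⟩
      have hβ0 : 0 < β s := lt_of_lt_of_le (by positivity) h2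
      have g1 := hmain m hm (β s) h2 (ν s) (hν s) 0 (fun j => y s (f j)) (fun j => p (f j))
        (fun j => hp _) (fun j => (hLi _).trans h4) fun j k => by
          have := h5 (f j) k
          rw [Pi.zero_apply, sub_zero]
          push_cast
          exact this
      rw [YM.sub_moment hd (y s) p f] at g1
      refine g1.trans ?_
      refine mul_le_mul (hCle m hm) ?_ (Real.rpow_nonneg hβ0.le _) hCm0.le
      have e1 : β s ^ (-(4 * κ)) = 1 / (β s ^ κ) ^ 4 := by
        rw [Real.rpow_neg hβ0.le, one_div, ← Real.rpow_natCast, ← Real.rpow_mul hβ0.le]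
        push_cast
        rw [mul_comm κ 4]
      rw [e1]
      refine one_div_le_one_div_of_le (by positivity) ?_
      calc (s : ℝ) ^ (d * r + 1) ≤ (s : ℝ) ^ (d * r + 2) := pow_le_pow_right₀ h1 (by omega)
        _ ≤ β s ^ κ := h3
        _ ≤ (β s ^ κ) ^ 4 := le_self_pow₀ ((one_le_pow₀ h1).trans h3) (by norm_num)
    refine ⟨⟨K + Cm, by positivity, ?_⟩, ?_⟩
    · filter_upwards [hdiff] with s ⟨h1, h2⟩
      have h3 : 1 / (s : ℝ) ^ (d * r + 1) ≤ 1 := by
        rw [div_le_one (by positivity)]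
        exact one_le_pow₀ h1
      have h4 := hKb s
      have h5 : Cm * (1 / (s : ℝ) ^ (d * r + 1)) ≤ Cm := mul_le_of_le_one_right hCm0.le h3
      refine ⟨?_, h4.trans (by linarith)⟩
      have h6 := h2.trans h5
      rw [abs_le] at h4 h6 ⊢
      constructor <;> linarith [h4.1, h4.2, h6.1, h6.2]
    · have h1 : Tendsto (fun s : ℕ => Cm * (1 / (s : ℝ))) atTop (𝓝 (Cm * 0)) :=
        tendsto_one_div_atTop_nhds_zero_nat.const_mul Cm
      rw [mul_zero] at h1
      refine squeeze_zero_norm' ?_ h1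
      filter_upwards [hdiff] with s ⟨h2, h3⟩
      have hs0' : (0 : ℝ) < s := by linarith
      rw [Real.norm_eq_abs, abs_mul, hφ]
      simp only
      rw [abs_of_pos (by positivity : (0 : ℝ) < (s : ℝ) ^ (d * r))]
      calc (s : ℝ) ^ (d * r) * _ ≤ (s : ℝ) ^ (d * r) * (Cm * (1 / (s : ℝ) ^ (d * r + 1))) :=
            mul_le_mul_of_nonneg_left h3 (by positivity)
        _ = Cm * (1 / (s : ℝ)) := by
            rw [pow_succ]
            field_simp
  -- the moments for subsets
  obtain ⟨F, hF⟩ : ∃ F : ℕ → Fin r → (LinkZ d → G) → ℝ, F = fun s i V =>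
    β s * (N - loopVar V (y s i) (p i)) := ⟨_, rfl⟩
  obtain ⟨Q, hQ⟩ : ∃ Q : Fin r → EuclideanSpace ℝ (Fin r × Fin n) → ℝ, Q = fun i ω =>
    1 / 2 * ∑ a, ω (i, a) ^ 2 := ⟨_, rfl⟩
  obtain ⟨P, hP⟩ : ∃ P : ℕ → Measure (EuclideanSpace ℝ (Fin r × Fin n)), P = fun s =>
    ProbabilityTheory.multivariateGaussian 0 (YM.cvM n (y s) p) := ⟨_, rfl⟩
  have hFc : ∀ s i, Continuous (F s i) := fun s i => by
    rw [hF]
    exact continuous_const.mul (continuous_const.sub (loopVar_cont _ _))
  have hprob : ∀ s, IsProbabilityMeasure (ν s) := fun s => (hν s).prob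
  have hFi : ∀ s (T : Finset (Fin r)), Integrable (fun V => ∏ i ∈ T, F s i V) (ν s) := fun s T =>
    (continuous_finsetProd T fun i _ => hFc s i).integrable_of_hasCompactSupport
      (HasCompactSupport.of_compactSpace _)
  have hQi : ∀ s (T : Finset (Fin r)), Integrable (fun ω => ∏ i ∈ T, Q i ω) (P s) := by
    intro s T
    obtain ⟨f, hf⟩ := YM.subset_param T
    have h1 := (YM.sub_moment' (n := n) hd (y s) p f).1
    rw [hP]
    refine h1.congr (Eventually.of_forall fun ω => ?_)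
    rw [hQ]
    exact (hf fun i => 1 / 2 * ∑ a, ω (i, a) ^ 2).symm
  have hNr : ∀ T : Finset (Fin r), YM.Nr φ (fun s => ∫ V, ∏ i ∈ T, F s i V ∂(ν s))
      (fun s => ∫ ω, ∏ i ∈ T, Q i ω ∂(P s)) := by
    intro T
    obtain ⟨f, hf⟩ := YM.subset_param T
    have hcard : T.card ≤ r + 1 := by
      have := Finset.card_le_univ T
      rw [Fintype.card_fin] at this
      omega
    have h1 := key T.card hcard f
    have e1 : (fun s => ∫ V, ∏ i ∈ T, F s i V ∂(ν s)) =
        fun s => ∫ V, ∏ j, (β s * (N - loopVar V (y s (f j)) (p (f j)))) ∂(ν s) := by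
      funext s
      congr 1
      funext V
      rw [hf, hF]
    have e2 : (fun s => ∫ ω, ∏ i ∈ T, Q i ω ∂(P s)) = fun s => YM.aper ((n : ℝ) / 2)
        fun j j' => YM.cv (y s (f j)) (p (f j)) (y s (f j')) (p (f j')) := by
      funext s
      rw [← (YM.sub_moment' (n := n) hd (y s) p f).2, hP]
      congr 1
      funext ω
      rw [hf, hQ]
    rw [e1, e2]
    exact h1
  have hone : ∀ i : Fin r, YM.Nr φ (fun s => ∫ V, F s i V ∂(ν s))
      (fun s => (n : ℝ) / 2 * YM.cv (y s i) (p i) (y s i) (p i)) := by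
    intro i
    have h1 := key 1 (by omega) fun _ => i
    have e1 : (fun s => ∫ V, F s i V ∂(ν s)) =
        fun s => ∫ V, ∏ _j : Fin 1, (β s * (N - loopVar V (y s i) (p i))) ∂(ν s) := by
      funext s
      rw [hF]
      simp
    have e2 : (fun s => (n : ℝ) / 2 * YM.cv (y s i) (p i) (y s i) (p i)) =
        fun s => YM.aper ((n : ℝ) / 2) fun _ _ : Fin 1 => YM.cv (y s i) (p i) (y s i) (p i) := by
      funext s
      have h2 := (YM.sub_moment (n := n) hd (y s) p fun _ : Fin 1 => i)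
      rw [← h2]
      simp only [Finset.univ_unique, Fin.default_eq_zero, Finset.prod_singleton]
      have h3 := YM.mean_one (n := n) hd (fun _ => y s i) (fun _ => p i)
      simp only [Finset.univ_unique, Fin.default_eq_zero, Finset.prod_singleton] at h3
      rw [integral_const_mul, h3]
      ring
    rw [e1, e2]
    exact h1
  have hexp := YM.expand_lim hNr hone
  have hlim := YM.aper_lim (n := n) hd hx hp (y := y) (fun i k => by
    rw [hy]; exact site_lim (x i) k)
  rw [← maxwell_eq] at hlim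
  have hsum := hexp.add hlim
  rw [zero_add] at hsum
  refine hsum.congr fun s => ?_
  have g1 := YM.expand_int (μ := ν s) (F s) (fun i => ∫ V, F s i V ∂(ν s)) (hFi s)
  have g2 := YM.expand_int (μ := P s) Q
    (fun i => (n : ℝ) / 2 * YM.cv (y s i) (p i) (y s i) (p i)) (hQi s)
  have g3 : ∫ ω, ∏ i, (Q i ω - (n : ℝ) / 2 * YM.cv (y s i) (p i) (y s i) (p i)) ∂(P s) =
      YM.aper ((n : ℝ) / 2) fun i j => if i = j then 0 else YM.cv (y s i) (p i) (y s j) (p j) := by
    rw [hQ, hP]
    exact YM.cen_moment (n := n) hd (y s) p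
  rw [← g1, ← g2, g3, hφ]
  simp only
  rw [mul_sub, sub_add_cancel]
  unfold lattice
  rw [← integral_const_mul]
  congr 1
  funext V
  have e0 : (s : ℝ) ^ (d * r) = ∏ _i : Fin r, (s : ℝ) ^ d := by
    rw [Finset.prod_const, Finset.card_univ, Fintype.card_fin, pow_mul]
  rw [e0, ← Finset.prod_mul_distrib]
  refine Finset.prod_congr rfl fun i _ => ?_
  have iW : Integrable (fun V : LinkZ d → G => loopVar V (y s i) (p i)) (ν s) :=
    (loopVar_cont _ _).integrable_of_hasCompactSupport (HasCompactSupport.of_compactSpace _)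
  have e2 : ∫ V, F s i V ∂(ν s) = β s * (N - ∫ V, loopVar V (y s i) (p i) ∂(ν s)) := by
    rw [hF]
    simp only
    rw [integral_const_mul, integral_sub (integrable_const _) iW]
    simp
  rw [e2, hF, hy]
  simp only
  ring

end

end Pool.Agent.Results.MP_7f377f_mp.WilsonLoopScalingLimit
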